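import Pool.Agent.TH91.LG.Defs

/-!
Job 1259 (LG-2a, owner helper91): Lie algebra facts from the velocity calculus.
-/

set_option autoImplicit false
set_option linter.unusedSectionVars false

namespace Pool.Agent.TH91.LG

open Topology Filter
open scoped ContDiff Manifold

section aux

variable {E : Type*} [NormedAddCommGroup E] [NormedSpace ℝ E] [FiniteDimensional ℝ E]

/-- pointwise convergence of linear maps of a finite dimensional space is jointly continuous -/
theorem tendsto_apply_699 {α : Type*} {l : Filter α} {A : α → E →ₗ[ℝ] E} {A₀ : E →ₗ[ℝ] E}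
    (hA : ∀ w, Tendsto (fun t => A t w) l (𝓝 (A₀ w))) {v : α → E} {v₀ : E}
    (hv : Tendsto v l (𝓝 v₀)) : Tendsto (fun t => A t (v t)) l (𝓝 (A₀ v₀)) := by
  set b := Module.finBasis ℝ E with hb
  have h1 : ∀ (B : E →ₗ[ℝ] E) (w : E), B w = ∑ i, b.repr w i • B (b i) := by
    intro B w
    conv_lhs => rw [← b.sum_repr w]
    rw [map_sum]
    simp
  have h2 : (fun t => A t (v t)) = fun t => ∑ i, b.repr (v t) i • A t (b i) := by
    funext t
    exact h1 _ _
  rw [h2, h1 A₀ v₀]
  apply tendsto_finsetSum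
  intro i _
  apply Tendsto.smul _ (hA (b i))
  have h3 : Continuous fun w : E => b.repr w i := by
    have := LinearMap.continuous_of_finiteDimensional (b.coord i)
    exact this
  exact (h3.tendsto v₀).comp hv

theorem hasDerivAt_lin_699 {u : ℝ → E} {u' : E} {t : ℝ} (B : E →ₗ[ℝ] E) (h : HasDerivAt u u' t) :
    HasDerivAt (fun t => B (u t)) (B u') t := by
  have := (LinearMap.toContinuousLinearMap B).hasFDerivAt.comp_hasDerivAt t h
  exact this

theorem hasDerivAt_bil_699 {u v : ℝ → E} {u' v' : E} {t : ℝ} (B : E →ₗ[ℝ] E →ₗ[ℝ] E)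
    (hu : HasDerivAt u u' t) (hv : HasDerivAt v v' t) :
    HasDerivAt (fun t => B (u t) (v t)) (B u' (v t) + B (u t) v') t := by
  have h1 : HasDerivAt (fun t => B.toContinuousBilinearMap (u t))
      (B.toContinuousBilinearMap u') t :=
    B.toContinuousBilinearMap.hasFDerivAt.comp_hasDerivAt t hu
  exact h1.clm_apply hv

/-- uniqueness for the linear ODE of a nilpotent operator -/
theorem ode_unique_699 {A : Module.End ℝ E} {u : ℝ → E} (hu : ∀ t, HasDerivAt u (A (u t)) t)
    (h0 : u 0 = 0) {n : ℕ} (hn : A ^ n = 0) (t : ℝ) : u t = 0 := by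
  have key : ∀ k, k ≤ n → ∀ t, (A ^ (n - k)) (u t) = 0 := by
    intro k
    induction k with
    | zero =>
      intro _ t
      rw [Nat.sub_zero, hn]
      rfl
    | succ k ih =>
      intro hk t
      have h1 : ∀ s, HasDerivAt (fun s => (A ^ (n - (k + 1))) (u s)) 0 s := by
        intro s
        have h2 := hasDerivAt_lin_699 (A ^ (n - (k + 1))) (hu s)
        have h3 : (A ^ (n - (k + 1))) (A (u s)) = 0 := by
          have h4 := ih (by omega) s
          rw [show n - k = n - (k + 1) + 1 by omega, pow_succ] at h4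
          exact h4
        rw [h3] at h2
        exact h2
      have h5 := is_const_of_deriv_eq_zero (f := fun s => (A ^ (n - (k + 1))) (u s))
        (fun s => (h1 s).differentiableAt) (fun s => (h1 s).deriv) t 0
      rw [h5, h0, map_zero]
  have := key n le_rfl t
  simpa using this

theorem pow_finrank_eq_zero_699 {A : Module.End ℝ E} (hA : IsNilpotent A) :
    A ^ (Module.finrank ℝ E) = 0 := by
  have h1 := hA.charpoly_eq_X_pow_finrank
  have h2 := LinearMap.aeval_self_charpoly A
  rw [h1] at h2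
  simpa using h2

theorem fexp_smul_apply_699 (A : Module.End ℝ E) (t : ℝ) (Y : E) :
    fexp (t • A) Y = ∑ k ∈ Finset.range (Module.finrank ℝ E + 1),
      (((k.factorial : ℝ)⁻¹) * t ^ k) • (A ^ k) Y := by
  unfold fexp
  rw [LinearMap.sum_apply]
  apply Finset.sum_congr rfl
  intro k _
  rw [smul_pow, LinearMap.smul_apply, LinearMap.smul_apply, smul_smul]

theorem hasDerivAt_fexp_699 {A : Module.End ℝ E} (hA : IsNilpotent A) (Y : E) (t : ℝ) :
    HasDerivAt (fun t : ℝ => fexp (t • A) Y) (A (fexp (t • A) Y)) t := by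
  have h1 : (fun t : ℝ => fexp (t • A) Y) = fun t => ∑ k ∈ Finset.range (Module.finrank ℝ E + 1),
      (((k.factorial : ℝ)⁻¹) * t ^ k) • (A ^ k) Y := by
    funext t
    exact fexp_smul_apply_699 A t Y
  rw [h1, fexp_smul_apply_699]
  have h2 : HasDerivAt (fun t : ℝ => ∑ k ∈ Finset.range (Module.finrank ℝ E + 1),
      (((k.factorial : ℝ)⁻¹) * t ^ k) • (A ^ k) Y)
      (∑ k ∈ Finset.range (Module.finrank ℝ E + 1),
      (((k.factorial : ℝ)⁻¹) * ((k : ℝ) * t ^ (k - 1))) • (A ^ k) Y) t := by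
    apply HasDerivAt.fun_sum
    intro k _
    exact ((hasDerivAt_pow k t).const_mul _).smul_const _
  convert h2 using 1
  rw [map_sum, Finset.sum_range_succ, Finset.sum_range_succ']
  have h3 : A ((((Module.finrank ℝ E).factorial : ℝ)⁻¹ * t ^ (Module.finrank ℝ E)) •
      (A ^ (Module.finrank ℝ E)) Y) = 0 := by
    rw [pow_finrank_eq_zero_699 hA]
    simp
  rw [h3]
  simp only [Nat.cast_zero, zero_mul, mul_zero, zero_smul, add_zero]
  apply Finset.sum_congr rfl
  intro k _
  rw [map_smul]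
  have h4 : A ((A ^ k) Y) = (A ^ (k + 1)) Y := by
    rw [pow_succ']
    rfl
  rw [h4]
  congr 1
  rw [Nat.factorial_succ, Nat.add_sub_cancel]
  push_cast
  have h5 : ((k : ℝ) + 1) ≠ 0 := by positivity
  have h6 : ((k.factorial : ℝ)) ≠ 0 := by positivity
  field_simp

end aux

variable {G : Type*} [Group G] [TopologicalSpace G] [IsTopologicalGroup G] {E : Type*}
  [NormedAddCommGroup E] [NormedSpace ℝ E] [FiniteDimensional ℝ E] (L : LieStr G E)

theorem LieStr.c_zero_699 (X : E) : L.c X 0 = 1 := by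
  have h := L.c_add X 0 0
  rw [add_zero] at h
  exact (mul_eq_left.mp h.symm)

theorem LieStr.T_ext_699 {γ δ : ℝ → G} {X Y : E} (h : ∀ t, γ t = δ t) (h1 : L.T γ X)
    (h2 : L.T δ Y) : X = Y := by
  have : γ = δ := funext h
  subst this
  exact L.T_unique h1 h2

theorem LieStr.Ad_mul (g h : G) : L.Ad (g * h) = L.Ad g ∘ₗ L.Ad h := by
  ext X
  have h1 := L.T_conj (g * h) (L.c_T X)
  have h2 := L.T_conj g (L.T_conj h (L.c_T X))
  refine L.T_ext_699 (fun t => ?_) h1 h2
  group

theorem LieStr.Ad_one : L.Ad 1 = LinearMap.id := by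
  ext X
  have h1 := L.T_conj 1 (L.c_T X)
  refine L.T_ext_699 (fun t => ?_) h1 (L.c_T X)
  group

theorem LieStr.conj_c (g : G) (X : E) (t : ℝ) : g * L.c X t * g⁻¹ = L.c (L.Ad g X) t := by
  have h1 := L.c_unique (L.Ad g X) (fun t => g * L.c X t * g⁻¹) ?_ (L.T_conj g (L.c_T X))
  · exact congrFun h1 t
  · intro s t
    rw [L.c_add]
    group

theorem LieStr.c_smul (a : ℝ) (X : E) (t : ℝ) : L.c (a • X) t = L.c X (a * t) := by
  have h0 : HasDerivAt (fun t : ℝ => a * t) a 0 := by
    simpa using (hasDerivAt_id (0 : ℝ)).const_mul a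
  have h1 := L.c_unique (a • X) (fun t => L.c X (a * t)) ?_
    (L.T_comp (L.c_T X) (by simp) h0)
  · exact (congrFun h1 t).symm
  · intro s t
    rw [mul_add, L.c_add]

theorem LieStr.Ad_c_self_699 (X : E) (t : ℝ) : L.Ad (L.c X t) X = X := by
  refine L.T_ext_699 (fun s => ?_) (L.c_T (L.Ad (L.c X t) X)) (L.c_T X)
  rw [← L.conj_c, ← L.c_add, add_comm, L.c_add]
  group

theorem LieStr.ad_self (X : E) : L.ad X X = 0 := by
  have h1 := L.ad_deriv X X
  have h2 : (fun t => L.Ad (L.c X t) X) = fun _ => X := by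
    funext t
    exact L.Ad_c_self_699 X t
  rw [h2] at h1
  exact h1.unique (hasDerivAt_const 0 X)

theorem LieStr.Ad_ad (g : G) (X Y : E) : L.Ad g (L.ad X Y) = L.ad (L.Ad g X) (L.Ad g Y) := by
  have h1 := hasDerivAt_lin_699 (L.Ad g) (L.ad_deriv X Y)
  have h2 := L.ad_deriv (L.Ad g X) (L.Ad g Y)
  have h3 : (fun t => L.Ad g (L.Ad (L.c X t) Y)) =
      fun t => L.Ad (L.c (L.Ad g X) t) (L.Ad g Y) := by
    funext t
    rw [← L.conj_c]
    have e1 : L.Ad g (L.Ad (L.c X t) Y) = L.Ad (g * L.c X t) Y := by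
      rw [L.Ad_mul]
      rfl
    have e2 : L.Ad (g * L.c X t * g⁻¹) (L.Ad g Y) = L.Ad (g * L.c X t * g⁻¹ * g) Y := by
      rw [L.Ad_mul (g * L.c X t * g⁻¹) g]
      rfl
    rw [e1, e2]
    congr 2
    group
  rw [h3] at h1
  exact h1.unique h2

theorem LieStr.jacobi (x y z : E) :
    L.ad x (L.ad y z) = L.ad (L.ad x y) z + L.ad y (L.ad x z) := by
  have h1 := L.ad_deriv x (L.ad y z)
  have h2 := hasDerivAt_bil_699 L.ad (L.ad_deriv x y) (L.ad_deriv x z)
  have h3 : (fun t => L.Ad (L.c x t) (L.ad y z)) =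
      fun t => L.ad (L.Ad (L.c x t) y) (L.Ad (L.c x t) z) := by
    funext t
    exact L.Ad_ad _ _ _
  rw [h3] at h1
  have h4 := h1.unique h2
  rw [h4, L.c_zero_699, L.Ad_one]
  rfl

/-- iterated commutators of a curve with the elements of a list -/
def itc699 (δ : ℝ → G) : List G → ℝ → G
  | [], t => δ t
  | g :: l, t => g * itc699 δ l t * g⁻¹ * (itc699 δ l t)⁻¹

theorem LieStr.T_itc_699 {δ : ℝ → G} {Y : E} (h : L.T δ Y) (l : List G) :
    L.T (itc699 δ l) ((l.map fun g => (L.Ad g - 1 : Module.End ℝ E)).prod Y) := by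
  induction l with
  | nil => exact h
  | cons g l ih =>
    have h1 := L.T_mul (L.T_conj g ih) (L.T_inv ih)
    have h2 : (((g :: l).map fun g => (L.Ad g - 1 : Module.End ℝ E)).prod Y) =
        L.Ad g ((l.map fun g => (L.Ad g - 1 : Module.End ℝ E)).prod Y) +
          - ((l.map fun g => (L.Ad g - 1 : Module.End ℝ E)).prod Y) := by
      rw [List.map_cons, List.prod_cons, Module.End.mul_apply, LinearMap.sub_apply,
        Module.End.one_apply, sub_eq_add_neg]
    rw [h2]
    exact h1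

theorem itc_mem_699 (δ : ℝ → G) (l : List G) (t : ℝ) :
    itc699 δ l t ∈ (⊤ : Subgroup G).lowerCentralSeries l.length := by
  induction l with
  | nil => exact Subgroup.mem_top _
  | cons g l ih =>
    rw [List.length_cons, Subgroup.lowerCentralSeries_succ]
    have h1 := Subgroup.commutator_mem_commutator ih (Subgroup.mem_top g)
    have h2 := Subgroup.inv_mem _ h1
    rw [commutatorElement_inv] at h2
    exact h2

/-- products of `n` operators `Ad g - 1` vanish if `G` is nilpotent of class `n` -/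
theorem LieStr.exists_nil [Group.IsNilpotent G] : ∃ n : ℕ, ∀ l : List G, l.length = n →
    (l.map fun g => (L.Ad g - 1 : Module.End ℝ E)).prod = 0 := by
  obtain ⟨n, hn⟩ := Subgroup.nilpotent_iff_lowerCentralSeries.mp (inferInstance : Group.IsNilpotent G)
  refine ⟨n, fun l hl => ?_⟩
  ext Y
  have h1 := L.T_itc_699 (L.c_T Y) l
  have h2 : ∀ t, itc699 (L.c Y) l t = 1 := by
    intro t
    have := itc_mem_699 (L.c Y) l t
    rw [hl, hn] at this
    exact Subgroup.mem_bot.mp this
  exact L.T_ext_699 h2 h1 L.T_one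

theorem LieStr.slope_tendsto_699 (X Y : E) :
    Tendsto (fun t : ℝ => (t⁻¹ • (L.Ad (L.c X t) - 1) : Module.End ℝ E) Y) (𝓝[≠] 0)
      (𝓝 (L.ad X Y)) := by
  have h1 := (L.ad_deriv X Y).tendsto_slope_zero
  refine h1.congr (fun t => ?_)
  rw [L.c_zero_699, L.Ad_one]
  simp

theorem LieStr.prod_ad_tendsto_699 (l : List E) (Y : E) :
    Tendsto (fun t : ℝ => (l.map fun X => (t⁻¹ • (L.Ad (L.c X t) - 1) : Module.End ℝ E)).prod Y)
      (𝓝[≠] 0) (𝓝 ((l.map fun X => (L.ad X : Module.End ℝ E)).prod Y)) := by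
  induction l with
  | nil => exact tendsto_const_nhds
  | cons X l ih =>
    exact tendsto_apply_699 (A := fun t : ℝ => (t⁻¹ • (L.Ad (L.c X t) - 1) : Module.End ℝ E))
      (L.slope_tendsto_699 X) ih

theorem LieStr.nilLie [Group.IsNilpotent G] : NilLie L.ad := by
  refine ⟨L.ad_self, L.jacobi, ?_⟩
  obtain ⟨n, hn⟩ := L.exists_nil
  refine ⟨n, fun l hl => ?_⟩
  ext Y
  have h1 := L.prod_ad_tendsto_699 l Y
  have h2 : ∀ t : ℝ, (l.map fun X => (t⁻¹ • (L.Ad (L.c X t) - 1) : Module.End ℝ E)).prod = 0 := by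
    intro t
    have h3 : ∀ l : List E, (l.map fun X => (t⁻¹ • (L.Ad (L.c X t) - 1) : Module.End ℝ E)).prod =
        (t⁻¹) ^ l.length • ((l.map fun X => L.c X t).map
          fun g => (L.Ad g - 1 : Module.End ℝ E)).prod := by
      intro l
      induction l with
      | nil => simp
      | cons X l ih =>
        rw [List.map_cons, List.prod_cons, ih, List.map_cons, List.map_cons, List.prod_cons,
          List.length_cons, smul_mul_smul_comm, pow_succ']
    rw [h3, hn _ (by rw [List.length_map, hl]), smul_zero]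
  simp only [h2, LinearMap.zero_apply] at h1
  exact (tendsto_nhds_unique h1 tendsto_const_nhds)

theorem LieStr.Ad_nil [Group.IsNilpotent G] (g : G) :
    IsNilpotent (L.Ad g - 1 : Module.End ℝ E) := by
  obtain ⟨n, hn⟩ := L.exists_nil
  refine ⟨n, ?_⟩
  have := hn (List.replicate n g) (List.length_replicate)
  rwa [List.map_replicate, List.prod_replicate] at this

theorem LieStr.hasDerivAt_Ad_c_699 (X Y : E) (t : ℝ) :
    HasDerivAt (fun s => L.Ad (L.c X s) Y) (L.ad X (L.Ad (L.c X t) Y)) t := by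
  have h1 := L.ad_deriv X (L.Ad (L.c X t) Y)
  rw [← sub_self t] at h1
  have h2 := h1.comp_sub_const
  refine h2.congr_of_eventuallyEq (Eventually.of_forall fun s => ?_)
  show L.Ad (L.c X s) Y = L.Ad (L.c X (s - t)) (L.Ad (L.c X t) Y)
  have e : L.Ad (L.c X (s - t)) (L.Ad (L.c X t) Y) = L.Ad (L.c X (s - t) * L.c X t) Y := by
    rw [L.Ad_mul]
    rfl
  rw [e, ← L.c_add, sub_add_cancel]

theorem LieStr.Ad_c [Group.IsNilpotent G] (X : E) (t : ℝ) :
    L.Ad (L.c X t) = fexp (t • (L.ad X : Module.End ℝ E)) := by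
  have hA : IsNilpotent (L.ad X : Module.End ℝ E) := by
    obtain ⟨n, hn⟩ := L.nilLie.nil
    refine ⟨n, ?_⟩
    have := hn (List.replicate n X) (List.length_replicate)
    rwa [List.map_replicate, List.prod_replicate] at this
  obtain ⟨n, hn⟩ := hA
  ext Y
  have h1 := ode_unique_699 (A := (L.ad X : Module.End ℝ E))
    (u := fun t => L.Ad (L.c X t) Y - fexp (t • (L.ad X : Module.End ℝ E)) Y) ?_ ?_ hn t
  · exact sub_eq_zero.mp h1
  · intro s
    have h2 := (L.hasDerivAt_Ad_c_699 X Y s).sub (hasDerivAt_fexp_699 ⟨n, hn⟩ Y s)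
    rw [← map_sub] at h2
    exact h2
  · rw [L.c_zero_699, L.Ad_one, fexp_smul_apply_699, Finset.sum_range_succ']
    simp

end Pool.Agent.TH91.LG
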