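import Mathlib
import Pool.Agent.TH279.MZ.Defs
import Pool.Agent.Helper890.Cov.JA8

set_option autoImplicit false

open Set Filter Metric MeasureTheory
open Pool.Agent.TH279.MZ

namespace Pool.Agent.TH699.J1682

theorem WL_circle {φ : ℂ → ℝ} (h : WL φ) (z : ℂ) {R : ℝ} (hR : 0 < R) :
    φ z ≤ Real.circleAverage φ z R := by
  obtain ⟨hc, -, hw⟩ := h
  have key : ∀ v : ℂ, ∀ᶠ r in nhdsWithin (0 : ℝ) (Ioi 0),
      φ (R * v + z) ≤ Real.circleAverage (fun v : ℂ => φ (R * v + z)) v r := by
    intro v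
    have h1 := hw (fun ζ => R * (ζ + v) + z) (fun _ => 1) (by fun_prop) (by fun_prop)
    filter_upwards [h1] with r hr
    simp only [norm_one, one_mul, zero_add] at hr
    rw [← Real.circleAverage_map_add_const (f := fun v : ℂ => φ (R * v + z)) (c := v)]
    exact hr
  have hcc : Continuous (fun v : ℂ => φ (R * v + z)) := by fun_prop
  have h8 := Pool.Agent.Helper890.Cov.JA8.stA8 (fun v : ℂ => φ (R * v + z))
    (fun v : ℂ => φ (R * v + z))
    (fun v => ⟨fun v : ℂ => φ (R * v + z), Eventually.of_forall fun v => hcc.continuousAt,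
      Eventually.of_forall fun _ => rfl, le_refl _, Eventually.of_forall key⟩)
    hcc.continuousOn (fun _ _ => le_refl _)
  simp only [mul_zero, zero_add] at h8
  rw [Real.circleAverage_eq_circleAverage_zero_one]
  exact h8

theorem WL_mean {φ : ℂ → ℝ} (h : WL φ) {ρ : ℝ} (hρ : 1 ≤ ρ) {z : ℂ} (hz : ‖z‖ ≤ ρ) :
    ENNReal.ofReal (φ z) ≤
      ∫⁻ w in {w : ℂ | ρ + 2 ≤ ‖w‖ ∧ ‖w‖ ≤ 3 * ρ + 3}, ENNReal.ofReal (φ w) := by
  have hc : Continuous φ := h.1
  have h0 : ∀ w, 0 ≤ φ w := h.2.1
  -- smaller annulus around `z`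
  have hm : Measurable (fun w => ENNReal.ofReal (φ w)) := hc.measurable.ennreal_ofReal
  set A : Set ℂ := {w : ℂ | 2 * ρ + 2 ≤ ‖w - z‖ ∧ ‖w - z‖ ≤ 2 * ρ + 3} with hA
  have hsub : A ⊆ {w : ℂ | ρ + 2 ≤ ‖w‖ ∧ ‖w‖ ≤ 3 * ρ + 3} := by
    rintro w ⟨h1, h2⟩
    have h3 : ‖w - z‖ ≤ ‖w‖ + ‖z‖ := norm_sub_le w z
    have h4 : ‖w‖ ≤ ‖w - z‖ + ‖z‖ := by simpa using norm_add_le (w - z) z
    exact ⟨by linarith, by linarith⟩
  have hAm : MeasurableSet A := by
    have hA1 : IsClosed A := by
      have h1 : IsClosed {w : ℂ | 2 * ρ + 2 ≤ ‖w - z‖} := isClosed_le (by fun_prop) (by fun_prop)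
      have h2 : IsClosed {w : ℂ | ‖w - z‖ ≤ 2 * ρ + 3} := isClosed_le (by fun_prop) (by fun_prop)
      exact h1.inter h2
    exact hA1.measurableSet
  refine le_trans ?_ (lintegral_mono_set hsub)
  -- translate
  set F : ℂ → ENNReal := fun w => A.indicator (fun w => ENNReal.ofReal (φ w)) (w + z) with hF
  have e1 : ∫⁻ w in A, ENNReal.ofReal (φ w) = ∫⁻ w, F w := by
    rw [← lintegral_indicator hAm]
    exact (lintegral_add_right_eq_self (fun w => A.indicator (fun w => ENNReal.ofReal (φ w)) w) z).symm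
  rw [e1, ← Complex.lintegral_comp_polarCoord_symm]
  have hFm : Measurable F := (hm.indicator hAm).comp (measurable_id.add_const z)
  have hmm : Measurable (fun p : ℝ × ℝ => ENNReal.ofReal p.1 • F (Complex.polarCoord.symm p)) := by
    refine Measurable.smul (measurable_fst.ennreal_ofReal) (hFm.comp ?_)
    have : (fun p : ℝ × ℝ => Complex.polarCoord.symm p) =
        fun p : ℝ × ℝ => (p.1 : ℂ) * (Real.cos p.2 + Real.sin p.2 * Complex.I) := by
      funext p
      rw [Complex.polarCoord_symm_apply]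
    change Measurable (fun p : ℝ × ℝ => Complex.polarCoord.symm p)
    rw [this]
    fun_prop
  rw [polarCoord_target, Measure.volume_eq_prod, ← Measure.prod_restrict, lintegral_prod _ hmm.aemeasurable]
  have e2 : ∀ r ∈ Icc (2 * ρ + 2) (2 * ρ + 3), ENNReal.ofReal (φ z) ≤
      ∫⁻ θ in Ioo (-Real.pi) Real.pi, ENNReal.ofReal r • F (Complex.polarCoord.symm (r, θ)) := by
    intro r hr
    have hr0 : 0 < r := by linarith [hr.1]
    have hcirc : ∀ θ : ℝ, Complex.polarCoord.symm (r, θ) + z = circleMap z r θ := by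
      intro θ
      rw [Complex.polarCoord_symm_apply, circleMap, Complex.exp_mul_I]
      push_cast
      ring
    have hmem : ∀ θ : ℝ, circleMap z r θ ∈ A := by
      intro θ
      have : ‖circleMap z r θ - z‖ = r := by
        rw [circleMap_sub_center, norm_circleMap_zero, abs_of_pos hr0]
      exact ⟨by rw [this]; exact hr.1, by rw [this]; exact hr.2⟩
    have e3 : ∀ θ : ℝ, F (Complex.polarCoord.symm (r, θ)) = ENNReal.ofReal (φ (circleMap z r θ)) := by
      intro θ
      simp only [hF]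
      rw [hcirc, indicator_of_mem (hmem θ)]
    simp_rw [e3, smul_eq_mul]
    rw [lintegral_const_mul _ (by
      exact (hc.comp (continuous_circleMap z r)).measurable.ennreal_ofReal)]
    have hci : Continuous (fun θ : ℝ => φ (circleMap z r θ)) := hc.comp (continuous_circleMap z r)
    have e4 : ∫⁻ θ in Ioo (-Real.pi) Real.pi, ENNReal.ofReal (φ (circleMap z r θ)) =
        ENNReal.ofReal (∫ θ in (-Real.pi)..Real.pi, φ (circleMap z r θ)) := by
      rw [intervalIntegral.integral_of_le (by linarith [Real.pi_pos]),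
        ← ofReal_integral_eq_lintegral_ofReal, ← MeasureTheory.integral_Ioc_eq_integral_Ioo]
      · exact (hci.integrableOn_Icc (a := -Real.pi) (b := Real.pi)).mono_set Ioo_subset_Icc_self
      · exact Eventually.of_forall fun _ => h0 _
    rw [e4]
    have e5 : ∫ θ in (-Real.pi)..Real.pi, φ (circleMap z r θ) =
        2 * Real.pi * Real.circleAverage φ z r := by
      have hper : (fun θ : ℝ => φ (circleMap z r θ)).Periodic (2 * Real.pi) :=
        fun x => by simp [periodic_circleMap z r x]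
      have h6 := hper.intervalIntegral_add_eq (-Real.pi) 0
      rw [show -Real.pi + 2 * Real.pi = Real.pi by ring, zero_add] at h6
      rw [h6, Real.circleAverage_def, smul_eq_mul, ← mul_assoc,
        mul_inv_cancel₀ (by positivity), one_mul]
    have h7 : φ z ≤ Real.circleAverage φ z r := WL_circle h z hr0
    rw [e5, ← ENNReal.ofReal_mul hr0.le]
    refine ENNReal.ofReal_le_ofReal ?_
    have hp := Real.pi_gt_three
    have h8 : 0 ≤ Real.circleAverage φ z r := (h0 z).trans h7
    have h9 : 1 ≤ r * (2 * Real.pi) := by nlinarith [hr.1]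
    calc φ z ≤ 1 * Real.circleAverage φ z r := by rw [one_mul]; exact h7
      _ ≤ (r * (2 * Real.pi)) * Real.circleAverage φ z r := by gcongr
      _ = r * (2 * Real.pi * Real.circleAverage φ z r) := by ring
  calc ENNReal.ofReal (φ z) = ∫⁻ _ in Icc (2 * ρ + 2) (2 * ρ + 3), ENNReal.ofReal (φ z) := by
        rw [setLIntegral_const, Real.volume_Icc]
        norm_num
    _ ≤ ∫⁻ r in Icc (2 * ρ + 2) (2 * ρ + 3),
        ∫⁻ θ in Ioo (-Real.pi) Real.pi, ENNReal.ofReal r • F (Complex.polarCoord.symm (r, θ)) :=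
        setLIntegral_mono' measurableSet_Icc e2
    _ ≤ ∫⁻ r in Ioi 0,
        ∫⁻ θ in Ioo (-Real.pi) Real.pi, ENNReal.ofReal r • F (Complex.polarCoord.symm (r, θ)) := by
        refine lintegral_mono_set ?_
        intro r hr
        exact lt_of_lt_of_le (by linarith) hr.1

end Pool.Agent.TH699.J1682
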