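import Pool.Agent.TH490.StmN

/-!
Job 1178 (project MP_325b7c_co, owner helper490): the nibble lemma `N_A`, the conflicts meeting
the current list.
-/

set_option autoImplicit false
set_option linter.unusedSectionVars false

namespace Pool.Agent.TH699

open Finset Classical Pool.Agent.TH490

section basic

variable {n : ℕ} {X ι : Type} [Fintype X] [Fintype ι]

lemma hat_nonneg (D : Nib n X ι) (s : NSt n X ι) (hw : ∀ v, 0 ≤ s.w v) (v : X) :
    0 ≤ hat D s v := by
  unfold hat
  split_ifs
  · exact zero_le_one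
  · exact le_refl 0
  · have := hw v
    positivity

lemma fac_nonneg (D : Nib n X ι) (s : NSt n X ι) (β : ι) :
    0 ≤ (if D.tiny β then (1 : ℝ) else Real.exp (-5 * s.LB β)) := by
  split_ifs
  · exact zero_le_one
  · exact (Real.exp_pos _).le

lemma eng_nonneg (D : Nib n X ι) (s : NSt n X ι) (hw : ∀ v, 0 ≤ s.w v) (β : ι) (e : Finset X)
    (u : X) : 0 ≤ eng D s β e u := by
  unfold eng
  exact mul_nonneg (fac_nonneg D s β) (Finset.prod_nonneg fun v _ => hat_nonneg D s hw v)

lemma hat_step_cur_ne (D : Nib n X ι) (R : ℕ) (s : NSt n X ι) (x z : X)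
    (hz : (D.o z : ℕ) = s.t) (hne : x ≠ z) : hat D (stepS D R s x) z = 0 := by
  unfold hat
  have h1 : (D.o z : ℕ) < (stepS D R s x).t := by
    show (D.o z : ℕ) < s.t + 1
    omega
  rw [if_pos h1]
  have h2 : (stepS D R s x).c (D.o z) = x := by
    show (if ((D.o z : Fin n) : ℕ) = s.t then x else s.c (D.o z)) = x
    rw [if_pos hz]
  rw [h2, if_neg hne]

lemma hat_step_cur_eq (D : Nib n X ι) (R : ℕ) (s : NSt n X ι) (z : X)
    (hz : (D.o z : ℕ) = s.t) : hat D (stepS D R s z) z = 1 := by
  unfold hat
  have h1 : (D.o z : ℕ) < (stepS D R s z).t := by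
    show (D.o z : ℕ) < s.t + 1
    omega
  rw [if_pos h1]
  have h2 : (stepS D R s z).c (D.o z) = z := by
    show (if ((D.o z : Fin n) : ℕ) = s.t then z else s.c (D.o z)) = z
    rw [if_pos hz]
  rw [h2, if_pos rfl]

lemma hat_step_proc (D : Nib n X ι) (R : ℕ) (s : NSt n X ι) (x v : X)
    (hv : (D.o v : ℕ) < s.t) : hat D (stepS D R s x) v = hat D s v := by
  unfold hat
  have h1 : (D.o v : ℕ) < (stepS D R s x).t := by
    show (D.o v : ℕ) < s.t + 1
    omega
  have h2 : (stepS D R s x).c (D.o v) = s.c (D.o v) := by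
    show (if ((D.o v : Fin n) : ℕ) = s.t then x else s.c (D.o v)) = s.c (D.o v)
    rw [if_neg (by omega)]
  rw [if_pos h1, if_pos hv, h2]

lemma hat_cur (D : Nib n X ι) (s : NSt n X ι) (z : X)
    (hz : (D.o z : ℕ) = s.t) : hat D s z = 16 * s.w z := by
  unfold hat
  rw [if_neg (by omega)]

lemma hat_chosen (D : Nib n X ι) (s : NSt n X ι) (z : X)
    (hz : chosen D s z) : hat D s z = 1 := by
  unfold hat
  rw [if_pos hz.1, if_pos hz.2]

lemma hat_step_le (D : Nib n X ι) (R : ℕ) (s : NSt n X ι) (hw : ∀ v, 0 ≤ s.w v) (x v : X)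
    (hv : (D.o v : ℕ) ≠ s.t) (h : ℝ) (hh : 0 ≤ h) (hlog : 1 ≤ Real.log R)
    (hN0 : s.t < (D.o v : ℕ) → 0 ≤ hN D s v) (hNh : s.t < (D.o v : ℕ) → hN D s v ≤ h) :
    hat D (stepS D R s x) v ≤ hat D s v * (1 + h) := by
  rcases lt_or_gt_of_ne hv with h1 | h1
  · rw [hat_step_proc D R s x v h1]
    have := hat_nonneg D s hw v
    nlinarith
  · unfold hat
    have h2 : ¬ (D.o v : ℕ) < (stepS D R s x).t := by
      show ¬ (D.o v : ℕ) < s.t + 1
      omega
    have h3 : ¬ (D.o v : ℕ) < s.t := by omega
    rw [if_neg h2, if_neg h3]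
    have h4 : (stepS D R s x).w v ≤ s.w v * (1 + h) := by
      show (if blk D s x v then 0 else s.w v * (1 + (1 - 1 / Real.log R) * hN D s v))
        ≤ s.w v * (1 + h)
      have hwv := hw v
      split_ifs
      · positivity
      · apply mul_le_mul_of_nonneg_left _ hwv
        have e1 : 0 ≤ 1 / Real.log R := by positivity
        have e2 : 1 / Real.log R ≤ 1 := by
          rw [div_le_one (by linarith)]
          exact hlog
        have e3 := hN0 h1
        have e4 := hNh h1
        nlinarith
    linarith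

lemma fac_step_le (D : Nib n X ι) (R : ℕ) (s : NSt n X ι) (x : X) (β : ι)
    (hm : ¬ D.tiny β → 0 ≤ mB D s β) :
    (if D.tiny β then (1 : ℝ) else Real.exp (-5 * (stepS D R s x).LB β)) ≤
      (if D.tiny β then (1 : ℝ) else Real.exp (-5 * s.LB β)) := by
  split_ifs with h
  · exact le_refl _
  · apply Real.exp_le_exp.mpr
    have : (stepS D R s x).LB β = s.LB β + mB D s β := rfl
    rw [this]
    have := hm h
    linarith

/-- double counting: pay for every blocking item `x` by a conflict of type A0 containing it -/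
lemma sum_blk_le (D : Nib n X ι) (s : NSt n X ι) (u : X) (P : ι → Prop) (Q : X → Prop) (c : ℝ)
    (hw : ∀ v, 0 ≤ s.w v)
    (hQ : ∀ x ∈ lst D s.t, Q x → ∃ β, P β ∧ ∃ e ∈ confA0 D s β u, x ∈ e ∧
      c * pr D s x ≤ eng D s β e u)
    (hinj : ∀ β, ∀ e ∈ confA0 D s β u, ∀ x ∈ lst D s.t, ∀ y ∈ lst D s.t, x ∈ e → y ∈ e →
      x = y) :
    c * ∑ x ∈ (lst D s.t).filter Q, pr D s x ≤
      ∑ β ∈ univ.filter P, ∑ e ∈ confA0 D s β u, eng D s β e u := by
  rw [Finset.mul_sum]
  have hen := fun β e => eng_nonneg D s hw β e u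
  calc ∑ x ∈ (lst D s.t).filter Q, c * pr D s x
      ≤ ∑ x ∈ (lst D s.t).filter Q, ∑ β ∈ univ.filter P, ∑ e ∈ confA0 D s β u,
          (if x ∈ e then eng D s β e u else 0) := by
        apply Finset.sum_le_sum
        intro x hx
        obtain ⟨hxl, hxQ⟩ := Finset.mem_filter.mp hx
        obtain ⟨β, hβ, e, he, hxe, hle⟩ := hQ x hxl hxQ
        have h1 : eng D s β e u ≤ ∑ e ∈ confA0 D s β u, (if x ∈ e then eng D s β e u else 0) := by
          have := Finset.single_le_sum
            (f := fun e => if x ∈ e then eng D s β e u else 0) (s := confA0 D s β u)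
            (fun e' _ => by
              show 0 ≤ (if x ∈ e' then eng D s β e' u else 0)
              split_ifs
              · exact hen β e'
              · exact le_refl 0) he
          simpa [hxe] using this
        have h2 : ∑ e ∈ confA0 D s β u, (if x ∈ e then eng D s β e u else 0)
            ≤ ∑ β ∈ univ.filter P, ∑ e ∈ confA0 D s β u, (if x ∈ e then eng D s β e u else 0) := by
          apply Finset.single_le_sum
            (f := fun β => ∑ e ∈ confA0 D s β u, (if x ∈ e then eng D s β e u else 0))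
          · intro β' _
            apply Finset.sum_nonneg
            intro e' _
            split_ifs
            · exact hen β' e'
            · exact le_refl 0
          · exact Finset.mem_filter.mpr ⟨Finset.mem_univ _, hβ⟩
        linarith
    _ = ∑ β ∈ univ.filter P, ∑ e ∈ confA0 D s β u, ∑ x ∈ (lst D s.t).filter Q,
          (if x ∈ e then eng D s β e u else 0) := by
        rw [Finset.sum_comm]
        apply Finset.sum_congr rfl
        intro β _
        rw [Finset.sum_comm]
    _ ≤ ∑ β ∈ univ.filter P, ∑ e ∈ confA0 D s β u, eng D s β e u := by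
        apply Finset.sum_le_sum
        intro β _
        apply Finset.sum_le_sum
        intro e he
        rw [← Finset.sum_filter, Finset.sum_const, nsmul_eq_mul]
        have hc : (((lst D s.t).filter Q).filter (fun x => x ∈ e)).card ≤ 1 := by
          rw [Finset.card_le_one]
          intro a ha b hb
          obtain ⟨ha1, ha2⟩ := Finset.mem_filter.mp ha
          obtain ⟨hb1, hb2⟩ := Finset.mem_filter.mp hb
          exact hinj β e he a (Finset.mem_filter.mp ha1).1 b (Finset.mem_filter.mp hb1).1 ha2 hb2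
        have hc' : ((((lst D s.t).filter Q).filter (fun x => x ∈ e)).card : ℝ) ≤ 1 := by
          exact_mod_cast hc
        have := hen β e
        nlinarith

lemma eng_of_blk (D : Nib n X ι) (s : NSt n X ι) (β : ι) (e : Finset X) (u x : X)
    (hxe : x ∈ e) (hxu : x ≠ u) (hxt : (D.o x : ℕ) = s.t)
    (hz : ∀ z ∈ e, z ≠ u → z ≠ x → chosen D s z) :
    eng D s β e u = (if D.tiny β then (1 : ℝ) else Real.exp (-5 * s.LB β)) * (16 * s.w x) := by
  unfold eng
  rw [← Finset.mul_prod_erase _ _ (Finset.mem_erase.mpr ⟨hxu, hxe⟩), hat_cur D s x hxt]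
  have h1 : ∏ v ∈ (e.erase u).erase x, hat D s v = 1 := by
    apply Finset.prod_eq_one
    intro v hv
    obtain ⟨hvx, hv2⟩ := Finset.mem_erase.mp hv
    obtain ⟨hvu, hve⟩ := Finset.mem_erase.mp hv2
    exact hat_chosen D s v (hz v hve hvu hvx)
  rw [h1, mul_one]

end basic

theorem na : N_elem → N_A := by
  intro hE K
  obtain ⟨R₁, hR₁⟩ := hE K
  -- choose R large
  have hlim : Filter.Tendsto (fun R : ℕ => 2 * (K : ℝ) * (R : ℝ) ^ (-(99 / 100) : ℝ))
      Filter.atTop (nhds 0) := by
    have h1 : Filter.Tendsto (fun R : ℕ => (R : ℝ) ^ (-(99 / 100) : ℝ)) Filter.atTop (nhds 0) :=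
      (tendsto_rpow_neg_atTop (by norm_num : (0 : ℝ) < 99 / 100)).comp
        tendsto_natCast_atTop_atTop
    have h2 := h1.const_mul (2 * (K : ℝ))
    simpa using h2
  have hev : ∀ᶠ R : ℕ in Filter.atTop, 2 * (K : ℝ) * (R : ℝ) ^ (-(99 / 100) : ℝ) < 1 / 100 :=
    hlim.eventually (gt_mem_nhds (by norm_num))
  obtain ⟨R₂, hR₂⟩ := Filter.eventually_atTop.mp hev
  refine ⟨max R₁ (max R₂ 3), ?_⟩
  intro R hR n X ι _ _ D hD s hs ht u hu
  have hRR₁ : R₁ ≤ R := le_trans (le_max_left _ _) hR
  have hRR₂ : R₂ ≤ R := le_trans (le_trans (le_max_left _ _) (le_max_right _ _)) hR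
  have hR3 : 3 ≤ R := le_trans (le_trans (le_max_right _ _) (le_max_right _ _)) hR
  obtain ⟨hS, hP1, hpr, hNb, hmB, hexp⟩ := hR₁ R hRR₁ n X ι D hD s hs ht
  set h : ℝ := 2 * (K : ℝ) * (R : ℝ) ^ (-(99 / 100) : ℝ) with hdef
  have hh100 : h < 1 / 100 := hR₂ R hRR₂
  have hh0 : 0 ≤ h := by positivity
  have hlog : 1 ≤ Real.log R := by
    rw [Real.le_log_iff_exp_le (by positivity)]
    have h3 : (3 : ℝ) ≤ (R : ℝ) := by exact_mod_cast hR3
    have := Real.exp_one_lt_d9
    linarith
  have hw := hs.w_nonneg
  have hinj : ∀ β, ∀ e ∈ confA0 D s β u, ∀ x ∈ lst D s.t, ∀ y ∈ lst D s.t, x ∈ e → y ∈ e →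
      x = y := by
    intro β e he x hx y hy hxe hye
    have heconf : e ∈ D.conf β := (Finset.mem_filter.mp he).1
    apply hD.conf_inj β e heconf hxe hye
    have h1 : (D.o x : ℕ) = s.t := by simpa [lst] using hx
    have h2 : (D.o y : ℕ) = s.t := by simpa [lst] using hy
    apply Fin.ext
    omega
  refine ⟨?_, ?_, ?_, ?_⟩
  · -- first item
    intro β e he
    obtain ⟨heconf, htop, z, hze, hzt⟩ := by
      simpa [confA] using he
    have hzu : z ≠ u := by
      intro hc
      rw [hc] at hzt
      omega
    have hzl : z ∈ lst D s.t := by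
      simp [lst, hzt]
    -- only x = z contributes
    have hsum : ∑ x ∈ lst D s.t, pr D s x * eng D (stepS D R s x) β e u
        = pr D s z * eng D (stepS D R s z) β e u := by
      apply Finset.sum_eq_single_of_mem z hzl
      intro x hx hxz
      have h0 : hat D (stepS D R s x) z = 0 := hat_step_cur_ne D R s x z hzt hxz
      have h1 : ∏ v ∈ e.erase u, hat D (stepS D R s x) v = 0 :=
        Finset.prod_eq_zero (Finset.mem_erase.mpr ⟨hzu, hze⟩) h0
      unfold eng
      rw [h1]
      ring
    rw [hsum]
    have hcard : ((e.erase u).erase z).card = 2 := by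
      rw [Finset.card_erase_of_mem (Finset.mem_erase.mpr ⟨hzu, hze⟩),
        Finset.card_erase_of_mem htop.1, hD.conf_card β e heconf]
    have hprod' : ∏ v ∈ e.erase u, hat D (stepS D R s z) v
        = ∏ v ∈ (e.erase u).erase z, hat D (stepS D R s z) v := by
      rw [← Finset.mul_prod_erase _ _ (Finset.mem_erase.mpr ⟨hzu, hze⟩),
        hat_step_cur_eq D R s z hzt, one_mul]
    have hprod : ∏ v ∈ e.erase u, hat D s v
        = 16 * s.w z * ∏ v ∈ (e.erase u).erase z, hat D s v := by
      rw [← Finset.mul_prod_erase _ _ (Finset.mem_erase.mpr ⟨hzu, hze⟩),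
        hat_cur D s z hzt]
    have hle : ∏ v ∈ (e.erase u).erase z, hat D (stepS D R s z) v
        ≤ (∏ v ∈ (e.erase u).erase z, hat D s v) * (1 + h) ^ 2 := by
      have h1 : ∏ v ∈ (e.erase u).erase z, (hat D s v * (1 + h))
          = (∏ v ∈ (e.erase u).erase z, hat D s v) * (1 + h) ^ 2 := by
        rw [Finset.prod_mul_distrib, Finset.prod_const, hcard]
      rw [← h1]
      apply Finset.prod_le_prod
      · intro v _
        apply hat_nonneg
        intro v'
        show 0 ≤ (if blk D s z v' then 0 else s.w v' * (1 + (1 - 1 / Real.log R) * hN D s v'))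
        split_ifs
        · exact le_refl 0
        · have e1 : 0 ≤ hN D s v' := by
            unfold hN
            apply Finset.sum_nonneg
            intro y hy
            exact (hpr y (Finset.mem_filter.mp hy).1).1
          have e2 : 0 ≤ 1 - 1 / Real.log R := by
            have : 1 / Real.log R ≤ 1 := by
              rw [div_le_one (by linarith)]
              exact hlog
            linarith
          have := hw v'
          positivity
      · intro v hv
        have hve : v ∈ e := Finset.mem_of_mem_erase (Finset.mem_of_mem_erase hv)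
        have hvz : v ≠ z := (Finset.mem_erase.mp hv).1
        have hvt : (D.o v : ℕ) ≠ s.t := by
          intro hc
          apply hvz
          apply hD.conf_inj β e heconf hve hze
          apply Fin.ext
          omega
        exact hat_step_le D R s hw z v hvt h hh0 hlog (fun hv' => (hNb v hv').1)
          (fun hv' => le_trans (hNb v hv').2.1 (hNb v hv').2.2.2.2)
    have hfac := fac_step_le D R s z β (fun hb => (hmB β hb).1)
    have hf0 := fac_nonneg D s β
    have hf0' := fac_nonneg D (stepS D R s z) β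
    unfold eng
    rw [hprod', hprod]
    set P : ℝ := ∏ v ∈ (e.erase u).erase z, hat D s v with hPdef
    set P' : ℝ := ∏ v ∈ (e.erase u).erase z, hat D (stepS D R s z) v with hP'def
    set F : ℝ := (if D.tiny β then (1 : ℝ) else Real.exp (-5 * s.LB β)) with hFdef
    set F' : ℝ := (if D.tiny β then (1 : ℝ) else Real.exp (-5 * (stepS D R s z).LB β))
      with hF'def
    have hP0 : 0 ≤ P := Finset.prod_nonneg fun v _ => hat_nonneg D s hw v
    have hwz := hw z
    obtain ⟨hp0, hp1, _⟩ := hpr z hzl
    have hsq : (1 + h) ^ 2 ≤ 26 / 25 := by nlinarith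
    have step1 : F' * P' ≤ F * (P * (1 + h) ^ 2) := by
      calc F' * P' ≤ F' * (P * (1 + h) ^ 2) := mul_le_mul_of_nonneg_left hle hf0'
        _ ≤ F * (P * (1 + h) ^ 2) := mul_le_mul_of_nonneg_right hfac (by positivity)
    calc pr D s z * (F' * P') ≤ pr D s z * (F * (P * (1 + h) ^ 2)) :=
          mul_le_mul_of_nonneg_left step1 hp0
      _ ≤ (2 * s.w z) * (F * (P * (1 + h) ^ 2)) :=
          mul_le_mul_of_nonneg_right hp1 (by positivity)
      _ = (2 * s.w z * F * P) * (1 + h) ^ 2 := by ring
      _ ≤ (2 * s.w z * F * P) * (26 / 25) := mul_le_mul_of_nonneg_left hsq (by positivity)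
      _ = 13 / 100 * (F * (16 * s.w z * P)) := by ring
  · -- second item
    intro β e he x hx hblk
    obtain ⟨heconf, htop, z, hze, hzt, hoth⟩ := by
      simpa [confA0] using he
    have hzu : z ≠ u := by
      intro hc
      rw [hc] at hzt
      omega
    have hzero : ∃ v ∈ e.erase u, hat D (stepS D R s x) v = 0 := by
      by_cases hxz : x = z
      · by_cases hall : ∀ v ∈ e, v ≠ u → v ≠ z → chosen D s v
        · exfalso
          apply hblk
          by_cases hb : D.tiny β
          · right
            refine ⟨β, hb, e, heconf, htop, ?_, ?_, ?_⟩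
            · rw [hxz]; exact hze
            · rw [hxz]; exact hzu
            · intro v hv hvu hvx
              rw [hxz] at hvx
              exact hall v hv hvu hvx
          · left
            refine ⟨β, hb, e, heconf, htop, ?_, ?_, ?_⟩
            · rw [hxz]; exact hze
            · rw [hxz]; exact hzu
            · intro v hv hvu hvx
              rw [hxz] at hvx
              exact hall v hv hvu hvx
        · push Not at hall
          obtain ⟨v, hv, hvu, hvz, hvc⟩ := hall
          refine ⟨v, Finset.mem_erase.mpr ⟨hvu, hv⟩, ?_⟩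
          have hvt := hoth v hv hvu hvz
          rw [hat_step_proc D R s x v hvt]
          unfold hat
          rw [if_pos hvt, if_neg]
          intro hc
          exact hvc ⟨hvt, hc⟩
      · exact ⟨z, Finset.mem_erase.mpr ⟨hzu, hze⟩, hat_step_cur_ne D R s x z hzt hxz⟩
    obtain ⟨v, hv, hv0⟩ := hzero
    unfold eng
    rw [Finset.prod_eq_zero hv hv0, mul_zero]
  · -- third item
    unfold hN
    have key := sum_blk_le D s u (fun β => ¬ D.tiny β) (fun x => blkN D s x u) (262 / 100) hw
      ?_ hinj
    · convert key using 3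
    · intro x hx hb
      obtain ⟨β, hβ, e, he, htop, hxe, hxu, hz⟩ := hb
      have hxt : (D.o x : ℕ) = s.t := by simpa [lst] using hx
      refine ⟨β, hβ, e, ?_, hxe, ?_⟩
      · simp only [confA0, Finset.mem_filter]
        exact ⟨he, htop, x, hxe, hxt, fun v hv hvu hvx => (hz v hv hvu hvx).1⟩
      · rw [eng_of_blk D s β e u x hxe hxu hxt hz, if_neg hβ]
        have h1 : (4 / 5 : ℝ) ^ 5 ≤ Real.exp (-5 * s.LB β) := by
          have e1 : Real.exp (-5 * s.LB β) = (Real.exp (-s.LB β)) ^ 5 := by
            rw [← Real.exp_nat_mul]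
            congr 1
            push_cast
            ring
          rw [e1]
          exact pow_le_pow_left₀ (by norm_num) (hexp β hβ).le 5
        have h2 := (hpr x hx).2.1
        have h3 := hw x
        have h4 : (4 / 5 : ℝ) ^ 5 * (16 * s.w x) ≤ Real.exp (-5 * s.LB β) * (16 * s.w x) :=
          mul_le_mul_of_nonneg_right h1 (by positivity)
        nlinarith
  · -- fourth item
    unfold hT
    apply sum_blk_le D s u (fun β => D.tiny β) (fun x => blkT D s x u) 8 hw
    · intro x hx hb
      obtain ⟨β, hβ, e, he, htop, hxe, hxu, hz⟩ := hb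
      have hxt : (D.o x : ℕ) = s.t := by simpa [lst] using hx
      refine ⟨β, hβ, e, ?_, hxe, ?_⟩
      · simp only [confA0, Finset.mem_filter]
        exact ⟨he, htop, x, hxe, hxt, fun v hv hvu hvx => (hz v hv hvu hvx).1⟩
      · rw [eng_of_blk D s β e u x hxe hxu hxt hz, if_pos hβ]
        have h2 := (hpr x hx).2.1
        linarith
    · exact hinj

end Pool.Agent.TH699
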