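import Pool.Agent.TH168.Mil.Defs

/-!
Job 1784 (MIL-B1): bounds for the background functions
-/

set_option autoImplicit false

namespace Pool.Agent.TH699.J1784

open Set Filter Topology MeasureTheory
open Pool.Agent.TH168.Mil

theorem sg_mem (y : ℝ) : 0 ≤ sg y ∧ sg y ≤ 1 :=
  ⟨Real.smoothTransition.nonneg _, Real.smoothTransition.le_one _⟩

theorem sg_zero {y : ℝ} (h : phi y ≤ 0) : sg y = 0 :=
  Real.smoothTransition.zero_of_nonpos (by linarith)

theorem sg_one {y : ℝ} (h : 3 / 10 ≤ phi y) : sg y = 1 :=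
  Real.smoothTransition.one_of_one_le (by linarith)

theorem tau_mem (t : ℝ) : 0 ≤ tau t ∧ tau t ≤ 1 :=
  ⟨Real.smoothTransition.nonneg _, Real.smoothTransition.le_one _⟩

theorem tau_zero {t : ℝ} (h : t ≤ 12 / 5) : tau t = 0 :=
  Real.smoothTransition.zero_of_nonpos (by linarith)

theorem tau_one {t : ℝ} (h : 13 / 5 ≤ t) : tau t = 1 :=
  Real.smoothTransition.one_of_one_le (by linarith)

theorem continuous_tau : Continuous tau := by
  unfold tau
  exact Real.smoothTransition.continuous.comp (by fun_prop)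

theorem y_small {y : ℝ} (hy : 0 < y) (h : 0 ≤ phi y) : y ≤ 1 / 1000 := by
  unfold phi at h
  have hs : 0 < Real.sinh y := Real.sinh_pos_iff.mpr hy
  have h1 : Real.log (1000 * Real.sinh y) ≤ 0 := by linarith
  have h2 : 1000 * Real.sinh y ≤ 1 := (Real.log_nonpos_iff (by positivity)).mp h1
  have h3 : y ≤ Real.sinh y := Real.self_le_sinh_iff.mpr hy.le
  linarith

theorem phi_nonpos {y : ℝ} (h : 1 / 1000 ≤ y) : phi y ≤ 0 := by
  unfold phi
  have h3 : y ≤ Real.sinh y := Real.self_le_sinh_iff.mpr (by linarith)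
  have h1 : 0 ≤ Real.log (1000 * Real.sinh y) := Real.log_nonneg (by linarith)
  linarith

theorem phi_anti {x y : ℝ} (hx : 0 < x) (hxy : x ≤ y) : phi y ≤ phi x := by
  unfold phi
  have hs : 0 < Real.sinh x := Real.sinh_pos_iff.mpr hx
  have h1 : Real.sinh x ≤ Real.sinh y := Real.sinh_le_sinh.mpr hxy
  have h2 : Real.log (1000 * Real.sinh x) ≤ Real.log (1000 * Real.sinh y) :=
    Real.log_le_log (by positivity) (by linarith)
  linarith

theorem exp_phi {y : ℝ} (hy : 0 < y) : Real.exp (phi y / 2) = 1 / (1000 * Real.sinh y) := by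
  unfold phi
  have hs : 0 < Real.sinh y := Real.sinh_pos_iff.mpr hy
  rw [show -2 * Real.log (1000 * Real.sinh y) / 2 = - Real.log (1000 * Real.sinh y) by ring,
    Real.exp_neg, Real.exp_log (by positivity), one_div]

theorem G_zero {t : ℝ} (h : t ≤ 12 / 5) : Gc t = 0 ∧ Gs t = 0 := by
  have h0 : ∀ s ∈ uIcc (0 : ℝ) t, tau s = 0 := by
    intro s hs
    refine tau_zero ?_
    rcases le_total 0 t with h1 | h1
    · rw [uIcc_of_le h1] at hs
      linarith [hs.2]
    · rw [uIcc_of_ge h1] at hs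
      linarith [hs.2]
  unfold Gc Gs
  constructor
  · rw [intervalIntegral.integral_congr (g := fun _ => 0) fun s hs => by simp [h0 s hs]]
    simp
  · rw [intervalIntegral.integral_congr (g := fun _ => 0) fun s hs => by simp [h0 s hs]]
    simp

/-- bound for the integral of a product with `tau` -/
theorem G_aux {w W : ℝ → ℝ} (hw : Continuous w) (hw1 : ∀ s, |w s| ≤ 1)
    (hW : ∀ s, HasDerivAt W (w s) s) (hW1 : ∀ s, |W s| ≤ 1) {t : ℝ} (ht : 12 / 5 ≤ t) :
    |∫ s in (12 / 5 : ℝ)..t, tau s * w s| ≤ 4 := by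
  have hc : Continuous fun s => tau s * w s := continuous_tau.mul hw
  have hb : ∀ s, ‖tau s * w s‖ ≤ 1 := by
    intro s
    rw [norm_mul, Real.norm_eq_abs, Real.norm_eq_abs, abs_of_nonneg (tau_mem s).1]
    nlinarith [(tau_mem s).1, (tau_mem s).2, hw1 s, abs_nonneg (w s)]
  rcases le_total t (13 / 5) with h1 | h1
  · have h2 := intervalIntegral.norm_integral_le_of_norm_le_const (a := (12 / 5 : ℝ)) (b := t)
      (f := fun s => tau s * w s) (C := 1) fun s _ => hb s
    rw [Real.norm_eq_abs, abs_of_nonneg (by linarith : (0 : ℝ) ≤ t - 12 / 5)] at h2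
    linarith
  · rw [← intervalIntegral.integral_add_adjacent_intervals (b := (13 / 5 : ℝ))
      (hc.intervalIntegrable _ _) (hc.intervalIntegrable _ _)]
    have h2 := intervalIntegral.norm_integral_le_of_norm_le_const (a := (12 / 5 : ℝ))
      (b := (13 / 5 : ℝ)) (f := fun s => tau s * w s) (C := 1) fun s _ => hb s
    rw [Real.norm_eq_abs, abs_of_nonneg (by norm_num : (0 : ℝ) ≤ 13 / 5 - 12 / 5)] at h2
    have h3 : ∫ s in (13 / 5 : ℝ)..t, tau s * w s = W t - W (13 / 5) := by
      rw [intervalIntegral.integral_congr (g := w) fun s hs => by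
        rw [uIcc_of_le h1] at hs
        rw [tau_one hs.1, one_mul]]
      exact intervalIntegral.integral_eq_sub_of_hasDerivAt (fun s _ => hW s)
        (hw.intervalIntegrable _ _)
    rw [h3]
    have h4 := abs_add_le (∫ s in (12 / 5 : ℝ)..(13 / 5), tau s * w s) (W t - W (13 / 5))
    have h5 := abs_sub (W t) (W (13 / 5))
    have h6 := hW1 t
    have h7 := hW1 (13 / 5)
    norm_num at h2
    linarith

theorem G_bound (t : ℝ) : |Gc t| ≤ 4 ∧ |Gs t| ≤ 4 := by
  rcases le_total t (12 / 5) with h | h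
  · rw [(G_zero h).1, (G_zero h).2]
    norm_num
  · have hc1 : Continuous fun s => tau s * Real.cos s := continuous_tau.mul Real.continuous_cos
    have hc2 : Continuous fun s => tau s * Real.sin s := continuous_tau.mul Real.continuous_sin
    constructor
    · have h1 : Gc t = ∫ s in (12 / 5 : ℝ)..t, tau s * Real.cos s := by
        have h0 := (G_zero (le_refl (12 / 5 : ℝ))).1
        unfold Gc at h0 ⊢
        rw [← intervalIntegral.integral_add_adjacent_intervals (b := (12 / 5 : ℝ))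
          (hc1.intervalIntegrable _ _) (hc1.intervalIntegrable _ _), h0, zero_add]
      rw [h1]
      exact G_aux Real.continuous_cos Real.abs_cos_le_one Real.hasDerivAt_sin Real.abs_sin_le_one h
    · have h1 : Gs t = ∫ s in (12 / 5 : ℝ)..t, tau s * Real.sin s := by
        have h0 := (G_zero (le_refl (12 / 5 : ℝ))).2
        unfold Gs at h0 ⊢
        rw [← intervalIntegral.integral_add_adjacent_intervals (b := (12 / 5 : ℝ))
          (hc2.intervalIntegrable _ _) (hc2.intervalIntegrable _ _), h0, zero_add]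
      rw [h1]
      refine G_aux (W := fun s => - Real.cos s) Real.continuous_sin Real.abs_sin_le_one
        (fun s => ?_) (fun s => ?_) h
      · have h5 := (Real.hasDerivAt_cos s).fun_neg
        rwa [neg_neg] at h5
      · rw [abs_neg]
        exact Real.abs_cos_le_one s

/-- the integral of a function supported in `(0, 1/1000]` -/
theorem cut_int {f : ℝ → ℝ} {M : ℝ} (hM : ∀ s, 0 < s → |f s| ≤ M)
    (h0 : ∀ s, 1 / 1000 ≤ s → f s = 0) {y : ℝ} (hy : 0 < y) :
    |∫ s in y..1, f s| ≤ M / 1000 := by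
  have hM0 : 0 ≤ M := (abs_nonneg _).trans (hM 1 one_pos)
  rcases le_total (1 / 1000) y with h | h
  · rw [intervalIntegral.integral_congr (g := fun _ => 0) fun s hs => ?_]
    · simp only [intervalIntegral.integral_zero, abs_zero]
      positivity
    · refine h0 s ?_
      rcases le_total y 1 with h1 | h1
      · rw [uIcc_of_le h1] at hs
        linarith [hs.1]
      · rw [uIcc_of_ge h1] at hs
        linarith [hs.1]
  · have e : ∫ s in y..1, f s = ∫ s in y..(1 / 1000), f s := by
      rw [intervalIntegral.integral_of_le (by linarith), intervalIntegral.integral_of_le h]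
      refine setIntegral_eq_of_subset_of_forall_sdiff_eq_zero measurableSet_Ioc ?_ ?_
      · exact Ioc_subset_Ioc_right (by norm_num)
      · rintro s ⟨hs1, hs2⟩
        refine h0 s ?_
        by_contra hs3
        push Not at hs3
        exact hs2 ⟨hs1.1, hs3.le⟩
    rw [e]
    have h2 := intervalIntegral.norm_integral_le_of_norm_le_const (a := y)
      (b := (1 / 1000 : ℝ)) (f := f) (C := M) fun s hs => by
        rw [uIoc_of_le h] at hs
        exact hM s (hy.trans hs.1)
    rw [Real.norm_eq_abs, abs_of_nonneg (by linarith : (0 : ℝ) ≤ 1 / 1000 - y)] at h2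
    nlinarith

theorem ic_zero {s : ℝ} (h : 1 / 1000 ≤ s) : ic s = 0 := by
  unfold ic
  rw [sg_zero (phi_nonpos h), zero_mul]

theorem js_zero {s : ℝ} (h : 1 / 1000 ≤ s) : js s = 0 := by
  unfold js
  rw [sg_zero (phi_nonpos h), zero_mul]

theorem ic_abs (s : ℝ) : |ic s| ≤ 7 := by
  unfold ic
  have h1 := sg_mem s
  have h2 := abs_le.mp (Real.abs_cos_le_one (phi s))
  have h3 := abs_le.mp (Real.abs_sin_le_one (phi s))
  rw [abs_mul, abs_of_nonneg h1.1]
  have h4 : |-3 * Real.cos (phi s) + 4 * Real.sin (phi s)| ≤ 7 := by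
    rw [abs_le]
    constructor <;> linarith [h2.1, h2.2, h3.1, h3.2]
  calc sg s * |-3 * Real.cos (phi s) + 4 * Real.sin (phi s)| ≤ 1 * 7 :=
        mul_le_mul h1.2 h4 (abs_nonneg _) zero_le_one
    _ = 7 := one_mul _

theorem js_abs {s : ℝ} (hs : 0 < s) : |js s| ≤ 11 := by
  unfold js
  have h1 := sg_mem s
  have h2 := abs_le.mp (Real.abs_cos_le_one (phi s))
  have h3 := abs_le.mp (Real.abs_sin_le_one (phi s))
  have h5 : Real.exp (-s) ≤ 1 := Real.exp_le_one_iff.mpr (by linarith)
  have h6 := Real.exp_pos (-s)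
  rw [abs_mul, abs_of_nonneg h1.1]
  have h4 : |-3 * Real.sin (phi s) - 4 * Real.cos (phi s) + 4 * Real.exp (-s)| ≤ 11 := by
    rw [abs_le]
    constructor <;> linarith [h2.1, h2.2, h3.1, h3.2]
  calc sg s * |-3 * Real.sin (phi s) - 4 * Real.cos (phi s) + 4 * Real.exp (-s)| ≤ 1 * 11 :=
        mul_le_mul h1.2 h4 (abs_nonneg _) zero_le_one
    _ = 11 := one_mul _

theorem I_bound {y : ℝ} (hy : 0 < y) : |Ic y| ≤ 1 / 100 ∧ |Is y| ≤ 1 / 50 := by
  have h1 := cut_int (f := ic) (M := 7) (fun s _ => ic_abs s) (fun s hs => ic_zero hs) hy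
  have h2 := cut_int (f := js) (M := 11) (fun s hs => js_abs hs) (fun s hs => js_zero hs) hy
  unfold Ic Is
  constructor <;> linarith

theorem C1_abs {y : ℝ} (hy : 0 < y) : |C1 y| ≤ 4 + 1 / 100 := by
  unfold C1
  have h1 := abs_sub (Gc (phi y)) (Ic y)
  linarith [(G_bound (phi y)).1, (I_bound hy).1]

theorem D1_abs {y : ℝ} (hy : 0 < y) : |D1 y - Real.exp (-y)| ≤ 4 + 1 / 50 := by
  unfold D1
  rw [show Real.exp (-y) + Gs (phi y) - Is y - Real.exp (-y) = Gs (phi y) - Is y by ring]
  have h1 := abs_sub (Gs (phi y)) (Is y)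
  linarith [(G_bound (phi y)).2, (I_bound hy).2]

theorem C1_bound {y : ℝ} (hy : 0 < y) : |C1 y| ≤ 9 / 2 ∧ |D1 y| ≤ 11 / 2 := by
  refine ⟨(C1_abs hy).trans (by norm_num), ?_⟩
  have h1 := D1_abs hy
  have h5 : Real.exp (-y) ≤ 1 := Real.exp_le_one_iff.mpr (by linarith)
  have h6 := Real.exp_pos (-y)
  rw [abs_le] at h1 ⊢
  constructor <;> linarith [h1.1, h1.2]

/-- on the segment between `y` and `1` -/
theorem phi_seg {y : ℝ} (hy : 0 < y) (h : phi y ≤ 0) {s : ℝ} (hs : s ∈ uIcc y 1) :
    0 < s ∧ phi s ≤ 0 := by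
  rcases le_total y 1 with h1 | h1
  · rw [uIcc_of_le h1] at hs
    exact ⟨hy.trans_le hs.1, (phi_anti hy hs.1).trans h⟩
  · rw [uIcc_of_ge h1] at hs
    exact ⟨by linarith [hs.1], phi_nonpos (by linarith [hs.1])⟩

theorem int_zero {f : ℝ → ℝ} {y : ℝ} (h : ∀ s ∈ uIcc y 1, f s = 0) : ∫ s in y..1, f s = 0 := by
  rw [intervalIntegral.integral_congr (g := fun _ => 0) fun s hs => h s hs]
  simp

theorem capC1 {y : ℝ} (hy : 0 < y) (h : phi y ≤ 0) : C1 y = 0 ∧ D1 y = Real.exp (-y) := by
  have h1 : Ic y = 0 := int_zero fun s hs => by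
    unfold ic
    rw [sg_zero (phi_seg hy h hs).2, zero_mul]
  have h2 : Is y = 0 := int_zero fun s hs => by
    unfold js
    rw [sg_zero (phi_seg hy h hs).2, zero_mul]
  have h3 := G_zero (t := phi y) (by linarith)
  unfold C1 D1
  rw [h1, h2, h3.1, h3.2]
  constructor <;> ring

theorem Cc_bound {y : ℝ} (hy : 0 < y) : |Cc y| ≤ 1 / 200 ∧ |Dt y| ≤ 1 / 200 := by
  have h1 := cut_int (f := C1) (M := 4 + 1 / 100) (fun s hs => C1_abs hs)
    (fun s hs => (capC1 (by linarith) (phi_nonpos hs)).1) hy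
  have h2 := cut_int (f := fun s => D1 s - Real.exp (-s)) (M := 4 + 1 / 50)
    (fun s hs => D1_abs hs)
    (fun s hs => by rw [(capC1 (by linarith) (phi_nonpos hs)).2, sub_self]) hy
  unfold Cc Dt
  rw [abs_neg, abs_neg]
  constructor <;> linarith

theorem cap {y : ℝ} (hy : 0 < y) (h : phi y ≤ 0) :
    C1 y = 0 ∧ D1 y = Real.exp (-y) ∧ Cc y = 0 ∧ Dt y = 0 ∧ Bc y = 0 ∧
      Bs y = -4 * Real.exp (-y) ∧ al y = 0 ∧ a0 y = 0 ∧ a1 y = 0 := by
  have hC1 := (capC1 hy h).1
  have hD1 := (capC1 hy h).2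
  have hCc : Cc y = 0 := by
    unfold Cc
    rw [int_zero fun s hs => (capC1 (phi_seg hy h hs).1 (phi_seg hy h hs).2).1, neg_zero]
  have hDt : Dt y = 0 := by
    unfold Dt
    rw [int_zero fun s hs => by
      rw [(capC1 (phi_seg hy h hs).1 (phi_seg hy h hs).2).2, sub_self], neg_zero]
  have hBc : Bc y = 0 := by
    unfold Bc ic
    rw [hCc, tau_zero (by linarith), sg_zero h]
    ring
  have hBs : Bs y = -4 * Real.exp (-y) := by
    unfold Bs js
    rw [hDt, tau_zero (by linarith), sg_zero h]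
    ring
  have hal : ∀ s, phi s ≤ 0 → al s = 0 := by
    intro s hs
    unfold al
    rw [sg_zero hs, neg_zero, zero_mul]
  have hJc : Jc y = 0 := int_zero fun s hs => by rw [hal s (phi_seg hy h hs).2, mul_zero]
  have hJs : Js y = 0 := int_zero fun s hs => by rw [hal s (phi_seg hy h hs).2, mul_zero]
  refine ⟨hC1, hD1, hCc, hDt, hBc, hBs, hal y h, ?_, ?_⟩
  · unfold a0
    rw [hJc, hJs]
    ring
  · unfold a1
    rw [hJc, hJs]
    ring

theorem al_eq {y : ℝ} (h : 3 / 10 ≤ phi y) :
    al y = 3 + 2 * tau (phi y) * coth y -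
      3 * (Cc y * Real.cos (phi y) + Dt y * Real.sin (phi y)) := by
  unfold al Bc Bs ic js
  rw [sg_one h]
  linear_combination (3 + 2 * tau (phi y) * coth y) * Real.sin_sq_add_cos_sq (phi y)

theorem be_eq {y : ℝ} (h : 3 / 10 ≤ phi y) :
    be y = 4 + 3 * (Cc y * Real.sin (phi y) - Dt y * Real.cos (phi y)) := by
  unfold be Bc Bs ic js
  rw [sg_one h]
  linear_combination 4 * Real.sin_sq_add_cos_sq (phi y)

theorem T10_eq {y : ℝ} (h : sg y = 1) (θ : ℝ) :
    T10 θ y = 2 * Real.sin (θ - phi y / 2) *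
      (al y * Real.sin (θ - phi y / 2) - be y * Real.cos (θ - phi y / 2)) := by
  have hal : al y = -(Bc y * Real.cos (phi y) + Bs y * Real.sin (phi y)) := by
    unfold al
    rw [h]
    ring
  have hbe : be y = Bc y * Real.sin (phi y) - Bs y * Real.cos (phi y) := rfl
  set μ : ℝ := θ - phi y / 2 with hμ
  have h2 : 2 * θ = 2 * μ + phi y := by rw [hμ]; ring
  have e1 : Real.cos (2 * θ) = (2 * Real.cos μ ^ 2 - 1) * Real.cos (phi y) -
      (2 * Real.sin μ * Real.cos μ) * Real.sin (phi y) := by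
    rw [h2, Real.cos_add, Real.cos_two_mul, Real.sin_two_mul]
  have e2 : Real.sin (2 * θ) = (2 * Real.sin μ * Real.cos μ) * Real.cos (phi y) +
      (2 * Real.cos μ ^ 2 - 1) * Real.sin (phi y) := by
    rw [h2, Real.sin_add, Real.cos_two_mul, Real.sin_two_mul]
  unfold T10
  rw [e1, e2, hal, hbe]
  have h3 := Real.sin_sq_add_cos_sq μ
  linear_combination (2 * (Bc y * Real.cos (phi y) + Bs y * Real.sin (phi y))) * h3

theorem coth_pos {y : ℝ} (hy : 0 < y) : 0 < coth y :=
  div_pos (Real.cosh_pos y) (Real.sinh_pos_iff.mpr hy)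

theorem al_abs {y : ℝ} (hy : 0 < y) : |al y| ≤ 4 * coth y + 30 := by
  have hc := coth_pos hy
  have h1 := sg_mem y
  have ht := tau_mem (phi y)
  have hic := ic_abs y
  have hjs := js_abs hy
  have hCD := Cc_bound hy
  have h5 : Real.exp (-y) ≤ 1 := Real.exp_le_one_iff.mpr (by linarith)
  have h6 := Real.exp_pos (-y)
  have hcos := Real.abs_cos_le_one (phi y)
  have hsin := Real.abs_sin_le_one (phi y)
  have hB1 : |Bc y| ≤ 2 * coth y + 8 := by
    unfold Bc
    have e : |-2 * tau (phi y) * coth y * Real.cos (phi y)| ≤ 2 * coth y := by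
      rw [abs_mul, abs_mul, abs_mul, abs_of_nonneg ht.1, abs_of_pos hc]
      norm_num
      have : tau (phi y) * coth y * |Real.cos (phi y)| ≤ 1 * coth y * 1 := by
        refine mul_le_mul (mul_le_mul_of_nonneg_right ht.2 hc.le) hcos (abs_nonneg _) ?_
        positivity
      nlinarith
    have e2 : |3 * Cc y| ≤ 3 / 200 := by
      rw [abs_mul]
      norm_num
      linarith [hCD.1]
    have e3 := abs_add_three (-2 * tau (phi y) * coth y * Real.cos (phi y)) (ic y) (3 * Cc y)
    linarith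
  have hB2 : |Bs y| ≤ 2 * coth y + 16 := by
    unfold Bs
    have e : |-2 * tau (phi y) * coth y * Real.sin (phi y)| ≤ 2 * coth y := by
      rw [abs_mul, abs_mul, abs_mul, abs_of_nonneg ht.1, abs_of_pos hc]
      norm_num
      have : tau (phi y) * coth y * |Real.sin (phi y)| ≤ 1 * coth y * 1 := by
        refine mul_le_mul (mul_le_mul_of_nonneg_right ht.2 hc.le) hsin (abs_nonneg _) ?_
        positivity
      nlinarith
    rw [abs_le] at e hjs ⊢
    have e2 := abs_le.mp hCD.2
    constructor <;> linarith [e.1, e.2, hjs.1, hjs.2, e2.1, e2.2]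
  unfold al
  have h7 : |Bc y * Real.cos (phi y) + Bs y * Real.sin (phi y)| ≤ 4 * coth y + 24 := by
    have a1 := abs_add_le (Bc y * Real.cos (phi y)) (Bs y * Real.sin (phi y))
    rw [abs_mul, abs_mul] at a1
    have a2 : |Bc y| * |Real.cos (phi y)| ≤ |Bc y| * 1 :=
      mul_le_mul_of_nonneg_left hcos (abs_nonneg _)
    have a3 : |Bs y| * |Real.sin (phi y)| ≤ |Bs y| * 1 :=
      mul_le_mul_of_nonneg_left hsin (abs_nonneg _)
    linarith
  rw [abs_mul, abs_neg, abs_of_nonneg h1.1]
  calc sg y * |Bc y * Real.cos (phi y) + Bs y * Real.sin (phi y)| ≤ 1 * (4 * coth y + 24) :=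
        mul_le_mul h1.2 h7 (abs_nonneg _) zero_le_one
    _ ≤ 4 * coth y + 30 := by linarith

/-- the source is essentially nonnegative -/
theorem al_lower {y : ℝ} (hy : 0 < y) : -1 ≤ al y := by
  have hCD := Cc_bound hy
  have hC := abs_le.mp hCD.1
  have hD := abs_le.mp hCD.2
  have hcos := Real.abs_cos_le_one (phi y)
  have hsin := Real.abs_sin_le_one (phi y)
  have hcd : Cc y * Real.cos (phi y) + Dt y * Real.sin (phi y) ≤ 1 / 100 := by
    have a1 : Cc y * Real.cos (phi y) ≤ |Cc y| * |Real.cos (phi y)| := by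
      rw [← abs_mul]; exact le_abs_self _
    have a2 : Dt y * Real.sin (phi y) ≤ |Dt y| * |Real.sin (phi y)| := by
      rw [← abs_mul]; exact le_abs_self _
    have a3 : |Cc y| * |Real.cos (phi y)| ≤ 1 / 200 * 1 :=
      mul_le_mul hCD.1 hcos (abs_nonneg _) (by norm_num)
    have a4 : |Dt y| * |Real.sin (phi y)| ≤ 1 / 200 * 1 :=
      mul_le_mul hCD.2 hsin (abs_nonneg _) (by norm_num)
    linarith
  rcases le_total (phi y) 0 with h | h
  · rw [(cap hy h).2.2.2.2.2.2.1]
    norm_num
  · rcases le_total (3 / 10) (phi y) with h1 | h1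
    · rw [al_eq h1]
      have h2 : 0 ≤ 2 * tau (phi y) * coth y := by
        have := (tau_mem (phi y)).1
        have := coth_pos hy
        positivity
      linarith
    · have ht : tau (phi y) = 0 := tau_zero (by linarith)
      have hs := sg_mem y
      have hsn : 0 ≤ Real.sin (phi y) :=
        Real.sin_nonneg_of_nonneg_of_le_pi h (by linarith [Real.pi_gt_three])
      have h6 := Real.exp_pos (-y)
      have e : al y = sg y * (3 * sg y + 4 * Real.exp (-y) * ((1 - sg y) * Real.sin (phi y)) -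
          3 * (Cc y * Real.cos (phi y) + Dt y * Real.sin (phi y))) := by
        unfold al Bc Bs ic js
        rw [ht]
        linear_combination (3 * sg y ^ 2) * Real.sin_sq_add_cos_sq (phi y)
      rw [e]
      have h7 : 0 ≤ 4 * Real.exp (-y) * ((1 - sg y) * Real.sin (phi y)) :=
        mul_nonneg (by positivity) (mul_nonneg (by linarith [hs.2]) hsn)
      have h8 : -(3 / 100) ≤ 3 * sg y + 4 * Real.exp (-y) * ((1 - sg y) * Real.sin (phi y)) -
          3 * (Cc y * Real.cos (phi y) + Dt y * Real.sin (phi y)) := by linarith [hs.1]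
      nlinarith [hs.1, hs.2]

end Pool.Agent.TH699.J1784
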