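import Pool.Agent.TH28.FL.DatK

/-!
Job 1855 (FL3-H2): rank of the form for a contraction
-/

set_option autoImplicit false

universe u v

namespace Pool.Agent.TH699.J1855

open Module TensorProduct
open Pool.Agent.TH28.FL

theorem h2 : Pool.Agent.TH28.FL.S_H2.{u,v} := by
  intro k _ _ g s _ _ _ _ _ _ N b ι π hz h r hc
  -- the bracket
  have hbr : ∀ u w : g, ⁅u, w⁆ = ι ⁅π u, π w⁆ := by
    intro u w
    have h1 : ⁅u, w⁆ = ⁅ι (π u), w⁆ := by
      have := hz u w
      rwa [sub_lie, sub_eq_zero] at this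
    have h2 : ⁅w, ι (π u)⁆ = ⁅ι (π w), ι (π u)⁆ := by
      have := hz w (ι (π u))
      rwa [sub_lie, sub_eq_zero] at this
    rw [h1, ← lie_skew, h2, lie_skew, LieHom.map_lie]
  -- the form attaining the index
  have hne : (Set.range fun ξ : Dual k g =>
      finrank k (LinearMap.ker ((brt h r hc none).compr₂ ξ))).Nonempty :=
    Set.range_nonempty _
  obtain ⟨ξ, hξ⟩ := Nat.sInf_mem hne
  change finrank k (LinearMap.ker ((brt h r hc none).compr₂ ξ)) = ind (brt h r hc none) at hξ
  haveI : FiniteDimensional k g := Module.Basis.finiteDimensional_of_finite b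
  have hN : finrank k g = N := by
    rw [finrank_eq_card_basis b, Fintype.card_fin]
  set P : g →ₗ[k] g := prr h r hc with hP
  set Q : g →ₗ[k] g := prh h r hc with hQ
  have hPr : ∀ u, P u ∈ r.toSubmodule := fun u => by
    rw [hP]; unfold prr; exact Submodule.projection_apply_mem _ _
  have hQr : ∀ u ∈ r.toSubmodule, Q u = 0 := fun u hu => by
    rw [hQ]; unfold prh
    exact (Submodule.projection_apply_eq_zero_iff hc).2 hu
  -- the elements α, x
  have hnd := LieAlgebra.IsKilling.killingForm_nondegenerate k s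
  set e := LinearMap.BilinForm.toDual (killingForm k s) hnd with he
  set α : s := e.symm (ξ ∘ₗ (ι : s →ₗ[k] g)) with hα
  set x : s := e.symm ((ξ ∘ₗ Q) ∘ₗ (ι : s →ₗ[k] g)) with hx
  have hκα : ∀ y : s, killingForm k s α y = ξ (ι y) := by
    intro y
    rw [← LinearMap.BilinForm.toDual_def hnd, hα]
    change e (e.symm _) y = _
    rw [LinearEquiv.apply_symm_apply]
    rfl
  have hκx : ∀ y : s, killingForm k s x y = ξ (Q (ι y)) := by
    intro y
    rw [← LinearMap.BilinForm.toDual_def hnd, hx]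
    change e (e.symm _) y = _
    rw [LinearEquiv.apply_symm_apply]
    rfl
  refine ⟨α, x, ?_, ?_⟩
  · rintro _ ⟨a, ha, rfl⟩ _ ⟨c, hc', rfl⟩
    change killingForm k s x ⁅π a, π c⁆ = 0
    rw [hκx, ← hbr, hQr _ (r.lie_mem ha hc'), map_zero]
  · set R : Submodule k s := r.toSubmodule.map (π : g →ₗ[k] s) with hR
    set f : g →ₗ[k] (R × s) := LinearMap.prod
      (LinearMap.codRestrict R ((π : g →ₗ[k] s) ∘ₗ P)
        (fun u => Submodule.mem_map_of_mem (hPr u)))
      ((π : g →ₗ[k] s) ∘ₗ Q) with hf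
    have hΩ : (brt h r hc none).compr₂ ξ = (f.dualMap ∘ₗ cform k R α x) ∘ₗ f := by
      refine LinearMap.ext fun u => LinearMap.ext fun w => ?_
      change ξ (⁅P u, P w⁆ + Q (⁅P u, Q w⁆ + ⁅Q u, P w⁆)) =
        killingForm k s α ⁅π (P u), π (P w)⁆ +
          killingForm k s x (⁅π (P u), π (Q w)⁆ + ⁅π (Q u), π (P w)⁆)
      rw [map_add (killingForm k s x), hκα, hκx, hκx, ← hbr, ← hbr, ← hbr, map_add Q, map_add ξ,
        map_add ξ]
    have h3 := LinearMap.finrank_range_add_finrank_ker ((brt h r hc none).compr₂ ξ)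
    rw [hξ, hN] at h3
    rw [← h3]
    refine Nat.add_le_add_right ?_ _
    rw [hΩ]
    calc finrank k (LinearMap.range ((f.dualMap ∘ₗ cform k R α x) ∘ₗ f)) ≤
          finrank k (LinearMap.range (f.dualMap ∘ₗ cform k R α x)) :=
          Submodule.finrank_mono (LinearMap.range_comp_le_range _ _)
      _ = finrank k ((LinearMap.range (cform k R α x)).map f.dualMap) := by
          rw [LinearMap.range_comp]
      _ ≤ finrank k (LinearMap.range (cform k R α x)) := Submodule.finrank_map_le _ _

end Pool.Agent.TH699.J1855
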