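import Pool.Agent.TH317.CC.Gen
import Pool.Agent.TH692.CCG2

/-!
# Lifting polygon moves, general version (job CC-G2g, helper699)

Adapted from the proof of `lift_chain` (helper692).
-/

set_option autoImplicit false
set_option linter.unusedVariables false

universe u

namespace Pool.Agent.TH317.CC

open H692G2

theorem lift_small {M : Type u} [MetricSpace M] {D Λ : Type u} [LinearOrder Λ] [Inhabited D]
    (G : Rib D M Λ) (K K' : Set M) (r a b ρ : ℝ)
    (h : GCell G K K' r a b ρ) (ha : 0 < a) (hb : 0 < b) (har : a ≤ r) (hba : b ≤ a / 2)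
    (hρ0 : 0 < ρ) (hρ : ρ < b / 2) (Fc : Set (List D))
    (hFc : ∀ x ∈ K, ∀ (y : M) (ζ : List D), Walk G y y ζ → (∀ e ∈ ζ, dist x (G.tl e) < a) →
      ζ ∈ Fc)
    (n N : ℕ) (L0 L1 : ℝ)
    (hL : L0 + 2 * n * ρ ≤ L1 - N * (4 * (2 * r))) :
    ∃ (V : M → M) (W : M → M → List D), (∀ x ∈ K, V x ∈ K' ∧ dist x (V x) ≤ ρ) ∧
      (∀ x ∈ K, ∀ y ∈ K, dist x y ≤ b / 2 → Walk G (V x) (V y) (W x y) ∧
        ∀ e ∈ W x y, dist x (G.tl e) < a / 2 ∧ dist x (G.hd e) < a / 2) ∧
      ∀ P P', PStepN n (b / 2) L0 K P P' →
        Relation.ReflTransGen (Step G Fc (Rl G (2 * r) L1) N) (cword W P) (cword W P') := by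
  classical
  -- choice of the darts
  have hd : ∀ x, ∃ d : D, x ∈ K → dist x (G.tl d) ≤ ρ := by
    intro x
    by_cases hx : x ∈ K
    · obtain ⟨d, hd⟩ := h.dense x hx
      exact ⟨d, fun _ => hd⟩
    · exact ⟨default, fun hx' => absurd hx' hx⟩
  choose dd hdd using hd
  set V : M → M := fun x => G.tl (dd x) with hV
  have hVρ : ∀ x ∈ K, dist x (V x) ≤ ρ := fun x hx => hdd x hx
  have hw : ∀ x y, ∃ w : List D, x ∈ K → y ∈ K → dist x y ≤ b / 2 → Walk G (V x) (V y) w ∧
      ∀ e ∈ w, dist x (G.tl e) < a / 2 ∧ dist x (G.hd e) < a / 2 := by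
    intro x y
    by_cases hc : x ∈ K ∧ y ∈ K ∧ dist x y ≤ b / 2
    · obtain ⟨hx, hy, hxy⟩ := hc
      obtain ⟨w, hw⟩ := h.conn x hx (dd x) (dd y) (by linarith [hdd x hx])
        (by linarith [hdd y hy, dist_triangle x y (G.tl (dd y))])
      exact ⟨w, fun _ _ _ => hw⟩
    · exact ⟨[], fun hx hy hxy => absurd ⟨hx, hy, hxy⟩ hc⟩
  choose W hW using hw
  have hWw : ∀ x ∈ K, ∀ y ∈ K, dist x y ≤ b / 2 → Walk G (V x) (V y) (W x y) ∧
      ∀ e ∈ W x y, dist x (G.tl e) < a / 2 ∧ dist x (G.hd e) < a / 2 :=
    fun x hx y hy hxy => hW x y hx hy hxy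
  refine ⟨V, W, fun x hx => ⟨h.inK' _, hVρ x hx⟩, hWw, ?_⟩
  -- small walks
  have hsmall : ∀ x ∈ K, ∀ A : List D, (∀ e ∈ A, dist x (G.tl e) < r ∧ dist x (G.hd e) < r) →
      SmallW G (2 * r) (V x) A := by
    intro x hx A hA
    have h1 : ∀ c ∈ V x :: A.map G.hd, dist x c < r := by
      intro c hc
      rcases List.mem_cons.1 hc with rfl | hc
      · have := hVρ x hx
        linarith
      · obtain ⟨e, he, rfl⟩ := List.mem_map.1 hc
        exact (hA e he).2
    intro c hc c' hc'
    have h2 := h1 c hc
    have h3 := h1 c' hc'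
    have h4 := dist_triangle c x c'
    rw [dist_comm c x] at h4
    linarith
  have hWs : ∀ x ∈ K, ∀ y ∈ K, dist x y ≤ b / 2 → Walk G (V x) (V y) (W x y) ∧
      SmallW G (2 * r) (V x) (W x y) := by
    intro x hx y hy hxy
    obtain ⟨h1, h2⟩ := hWw x hx y hy hxy
    exact ⟨h1, hsmall x hx _ fun e he => ⟨by linarith [(h2 e he).1], by linarith [(h2 e he).2]⟩⟩
  -- levels
  have hRl : ∀ (x : M) (l : List M) (z : M) (l' : List M) (A : List D), l ++ [x] = z :: l' →
      Good (b / 2) L0 K (x :: l) → (x :: l).length ≤ n → Walk G (V x) (V z) A →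
      (∀ e ∈ A, dist x (G.tl e) < r ∧ dist x (G.hd e) < r) →
      Rl G (2 * r) L1 N (A ++ chw W (z :: l')) := by
    intro x l z l' A hl hG hn hA hA'
    obtain ⟨g1, g2, g3⟩ := hG
    have hx : x ∈ K := g3 x List.mem_cons_self
    have hK : ∀ y ∈ l ++ [x], y ∈ K := by
      intro y hy
      rw [List.mem_append, List.mem_singleton] at hy
      rcases hy with hy | rfl
      · exact g3 y (List.mem_cons_of_mem _ hy)
      · exact hx
    have hch : List.IsChain (fun a b' => dist a b' ≤ b / 2) (l ++ [x]) := by
      have := g1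
      rw [hl, List.isChain_cons_cons] at this
      rw [hl]
      exact this.2
    have hbw := bw_chain (G := G) hWs l x z (by rw [hl]; rfl) hch hK
    refine ⟨0, V x, V x :: l.map V, ?_, ?_⟩
    · rw [List.rotate_zero, ← hl]
      exact BW.cons _ _ _ _ _ _ hA (hsmall x hx A hA') hbw
    · have h1 := chl_map V K hVρ (l ++ [x]) x (fun y hy => by
        rcases List.mem_cons.1 hy with rfl | hy
        · exact hx
        · exact hK y hy)
      have e1 : (x :: (l ++ [x])).map V = V x :: l.map V ++ [V x] := by simp
      rw [e1] at h1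
      have h2 : ((l ++ [x]).length : ℝ) ≤ n := by
        have : (l ++ [x]).length ≤ n := by
          simp only [List.length_append, List.length_cons, List.length_nil] at hn ⊢
          omega
        exact_mod_cast this
      have h3 : 2 * ρ * ((l ++ [x]).length : ℝ) ≤ 2 * ρ * n :=
        mul_le_mul_of_nonneg_left h2 (by linarith)
      calc chl (V x :: l.map V ++ [V x]) ≤ chl (x :: (l ++ [x])) + 2 * ρ * (l ++ [x]).length := h1
        _ < L0 + 2 * n * ρ := by linarith
        _ ≤ _ := hL
  have hnext : ∀ (l : List M) (x : M), ∃ z l', l ++ [x] = z :: l' := by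
    intro l x
    cases l with
    | nil => exact ⟨x, [], rfl⟩
    | cons y l => exact ⟨y, l ++ [x], rfl⟩
  -- the moves
  have hmove : ∀ P P', PMove P P' → Good (b / 2) L0 K P → Good (b / 2) L0 K P' →
      P.length ≤ n → P'.length ≤ n → E G Fc (2 * r) L1 N (cword W P) (cword W P') := by
    intro P P' hm hG hG' hn hn'
    cases hm with
    | rot x l =>
      cases l with
      | nil => exact E.refl _
      | cons y l =>
        have hxy : dist x y ≤ b / 2 := by
          have := hG.1
          rw [List.cons_append, List.isChain_cons_cons] at this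
          exact this.1
        have hx : x ∈ K := hG.2.2 x List.mem_cons_self
        have hy : y ∈ K := hG.2.2 y (List.mem_cons_of_mem _ List.mem_cons_self)
        have e1 : cword W (x :: y :: l) = W x y ++ chw W (y :: (l ++ [x])) := rfl
        have e2 : cword W (y :: l ++ [x]) = chw W (y :: (l ++ [x])) ++ W x y := by
          have := chw_snoc W l y x y
          show chw W (y :: ((l ++ [x]) ++ [y])) = _
          rw [← this]
          simp
        obtain ⟨w1, w2⟩ := hWw x hx y hy hxy
        have h1 : Rl G (2 * r) L1 N (cword W (x :: y :: l)) := by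
          rw [e1]
          exact hRl x (y :: l) y (l ++ [x]) _ rfl hG hn w1
            (fun e he => ⟨by linarith [(w2 e he).1], by linarith [(w2 e he).2]⟩)
        have h2 := E_rot (Fc := Fc) h1 (W x y).length
        have e3 : (cword W (x :: y :: l)).rotate (W x y).length = cword W (y :: l ++ [x]) := by
          rw [e1, e2, List.rotate_append_length_eq]
        rw [e3] at h2
        exact h2
    | ins x y l =>
      obtain ⟨z, l', hl⟩ := hnext l x
      have e1 : cword W (x :: l) = W x z ++ chw W (z :: l') := by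
        show chw W (x :: (l ++ [x])) = _
        rw [hl, chw_cons]
      have e2 : cword W (x :: y :: l) = (W x y ++ W y z) ++ chw W (z :: l') := by
        show chw W (x :: y :: (l ++ [x])) = _
        rw [hl, chw_cons, chw_cons, List.append_assoc]
      have hx : x ∈ K := hG.2.2 x List.mem_cons_self
      have hy : y ∈ K := hG'.2.2 y (List.mem_cons_of_mem _ List.mem_cons_self)
      have hz : z ∈ K := by
        have : z ∈ l ++ [x] := by rw [hl]; exact List.mem_cons_self
        rw [List.mem_append, List.mem_singleton] at this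
        rcases this with h1 | rfl
        · exact hG.2.2 z (List.mem_cons_of_mem _ h1)
        · exact hx
      have hxz : dist x z ≤ b / 2 := by
        have := hG.1
        rw [hl, List.isChain_cons_cons] at this
        exact this.1
      have hxyz : dist x y ≤ b / 2 ∧ dist y z ≤ b / 2 := by
        have := hG'.1
        rw [List.cons_append, hl, List.isChain_cons_cons, List.isChain_cons_cons] at this
        exact ⟨this.1, this.2.1⟩
      obtain ⟨wxz, wxz'⟩ := hWw x hx z hz hxz
      obtain ⟨wxy, wxy'⟩ := hWw x hx y hy hxyz.1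
      obtain ⟨wyz, wyz'⟩ := hWw y hy z hz hxyz.2
      -- all letters are in the ball of radius `a`
      have bxz : ∀ e ∈ W x z, dist x (G.tl e) < a ∧ dist x (G.hd e) < a :=
        fun e he => ⟨by linarith [(wxz' e he).1], by linarith [(wxz' e he).2]⟩
      have bB : ∀ e ∈ W x y ++ W y z, dist x (G.tl e) < a ∧ dist x (G.hd e) < a := by
        intro e he
        rcases List.mem_append.1 he with he | he
        · exact ⟨by linarith [(wxy' e he).1], by linarith [(wxy' e he).2]⟩
        · have t1 := dist_triangle x y (G.tl e)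
          have t2 := dist_triangle x y (G.hd e)
          exact ⟨by linarith [(wyz' e he).1], by linarith [(wyz' e he).2]⟩
      have brev : ∀ w : List D, (∀ e ∈ w, dist x (G.tl e) < a ∧ dist x (G.hd e) < a) →
          ∀ e ∈ G.rev w, dist x (G.tl e) < a ∧ dist x (G.hd e) < a := by
        intro w hw e he
        unfold Rib.rev at he
        rw [List.mem_reverse, List.mem_map] at he
        obtain ⟨e', he', rfl⟩ := he
        rw [tl_inv, hd_inv]
        exact ⟨(hw e' he').2, (hw e' he').1⟩
      have wB : Walk G (V x) (V z) (W x y ++ W y z) := walk_append wxy wyz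
      have wz0 : Walk G (V z) (V z) (G.rev (W x z) ++ (W x y ++ W y z)) :=
        walk_append (walk_rev wxz) wB
      have bz0 : ∀ e ∈ G.rev (W x z) ++ (W x y ++ W y z),
          dist x (G.tl e) < a ∧ dist x (G.hd e) < a := by
        intro e he
        rcases List.mem_append.1 he with he | he
        · exact brev _ bxz e he
        · exact bB e he
      have hball : ∀ w : List D, (∀ e ∈ w, dist x (G.tl e) < a ∧ dist x (G.hd e) < a) →
          ∀ e ∈ w, dist x (G.tl e) < r ∧ dist x (G.hd e) < r :=
        fun w hw e he => ⟨by linarith [(hw e he).1], by linarith [(hw e he).2]⟩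
      have hRlA : ∀ A : List D, Walk G (V x) (V z) A →
          (∀ e ∈ A, dist x (G.tl e) < r ∧ dist x (G.hd e) < r) →
          Rl G (2 * r) L1 N (A ++ chw W (z :: l')) := fun A hA hA' =>
        hRl x l z l' A hl hG hn hA hA'
      -- the two faces
      have hf1 : G.rev (W x z) ++ (W x y ++ W y z) ∈ Fc :=
        hFc x hx (V z) _ wz0 (fun e he => (bz0 e he).1)
      have wz1 : Walk G (V x) (V x) (W x z ++ G.rev (W x z)) := walk_append wxz (walk_rev wxz)
      have hf2 : W x z ++ G.rev (W x z) ∈ Fc := by
        refine hFc x hx (V x) _ wz1 (fun e he => ?_)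
        rcases List.mem_append.1 he with he | he
        · exact (bxz e he).1
        · exact (brev _ bxz e he).1
      have hRmid : Rl G (2 * r) L1 N
          ((W x z ++ (G.rev (W x z) ++ (W x y ++ W y z))) ++ chw W (z :: l')) := by
        refine hRlA _ (walk_append wxz wz0) (fun e he => ?_)
        rcases List.mem_append.1 he with he | he
        · exact hball _ bxz e he
        · exact hball _ bz0 e he
      have hR1 := hRlA _ wxz (hball _ bxz)
      have hR2 := hRlA _ wB (hball _ bB)
      have p1 : E G Fc (2 * r) L1 N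
          ((W x z ++ (G.rev (W x z) ++ (W x y ++ W y z))) ++ chw W (z :: l'))
          (W x z ++ chw W (z :: l')) :=
        E_del (Del.face (W x z) _ (chw W (z :: l')) hf1) hRmid hR1
      have hdel2 : Del G Fc
          ((W x z ++ (G.rev (W x z) ++ (W x y ++ W y z))) ++ chw W (z :: l'))
          ((W x y ++ W y z) ++ chw W (z :: l')) := by
        have := Del.face (G := G) (Fc := Fc) [] (W x z ++ G.rev (W x z))
          ((W x y ++ W y z) ++ chw W (z :: l')) hf2
        simpa using this
      have p2 := E_del hdel2 hRmid hR2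
      rw [e1, e2]
      exact p1.symm.trans p2
  intro P P' hP
  obtain ⟨⟨hG, hG', hm⟩, hn, hn'⟩ := hP
  rcases hm with hm | hm
  · exact (hmove P P' hm hG hG' hn hn').1
  · exact (hmove P' P hm hG' hG hn' hn).2

end Pool.Agent.TH317.CC
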