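import Pool.Agent.TH64.Axis

/-!
Job 1246 (project MP_42532b_al, owner helper65): exponential growth of non-elementary subgroups
by ping-pong with the Behrstock inequality.
-/

set_option autoImplicit false

namespace Pool.Agent.TH699

open Pool.Agent.TH64 Filter

section pingpong

variable {G : Type*} [Group G] {H : Hyp G} {x : G} (A : Ax H x)

/-- the translate of a point by `u x^N u⁻¹` is moved by `N` along the line `u⟨x⟩` -/
theorem move (u b p : G) (N : ℤ) : A.s u b (u * x ^ N * u⁻¹ * p) = A.s u b p + N := by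
  rw [← A.s_add u b p (u * x ^ N * u⁻¹ * p), A.s_rot]

/-- ping-pong: the translation along `u⟨x⟩` moves points of the positive side of `w⟨x⟩` to the
positive side of `u⟨x⟩` -/
theorem ping {u w : G} (h : u⁻¹ * w ∉ Subgroup.zpowers x) {N : ℤ} (hN : 2 * (A.th : ℤ) < N)
    {p : G} (hp : (A.th : ℤ) < A.s u w p ∨ (A.th : ℤ) < A.s w u p) :
    (A.th : ℤ) < A.s u w (u * x ^ N * u⁻¹ * p) := by
  rw [move]
  have hth : (0 : ℤ) ≤ A.th := by positivity
  rcases hp with hp | hp
  · omega
  · rcases A.beh h p with h1 | h1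
    · have h2 := h1 0
      rw [zpow_zero, mul_one, A.s_symm, abs_neg] at h2
      have := neg_abs_le (A.s u w p)
      omega
    · exfalso
      have h2 := h1 0
      rw [zpow_zero, mul_one, A.s_symm, abs_neg] at h2
      have := le_abs_self (A.s w u p)
      omega

theorem pong {u w : G} (h : u⁻¹ * w ∉ Subgroup.zpowers x) {p : G}
    (hp : (A.th : ℤ) < A.s u w p) (hp' : (A.th : ℤ) < A.s w u p) : False := by
  rcases A.beh h p with h1 | h1
  · have h2 := h1 0
    rw [zpow_zero, mul_one, A.s_symm, abs_neg] at h2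
    have := le_abs_self (A.s u w p)
    omega
  · have h2 := h1 0
    rw [zpow_zero, mul_one, A.s_symm, abs_neg] at h2
    have := le_abs_self (A.s w u p)
    omega

end pingpong

theorem exp_beats (K : ℝ) (d M : ℕ) : ∃ j : ℕ, K * (1 + ((j * M : ℕ) : ℝ)) ^ d < 2 ^ j := by
  have h1 := tendsto_pow_const_div_const_pow_of_one_lt d (r := 2) (by norm_num)
  have h2 := h1.const_mul (|K| * (1 + (M : ℝ)) ^ d)
  rw [mul_zero] at h2
  have h3 := (h2.eventually (gt_mem_nhds (by norm_num : (0 : ℝ) < 1))).and (eventually_ge_atTop 1)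
  obtain ⟨j, hj, hj1⟩ := h3.exists
  refine ⟨j, ?_⟩
  have h2j : (0 : ℝ) < 2 ^ j := by positivity
  have hj' : |K| * (1 + (M : ℝ)) ^ d * (j : ℝ) ^ d < 2 ^ j := by
    rw [← mul_div_assoc, div_lt_one h2j] at hj
    exact hj
  have hj1' : (1 : ℝ) ≤ j := by exact_mod_cast hj1
  calc K * (1 + ((j * M : ℕ) : ℝ)) ^ d ≤ |K| * (1 + ((j * M : ℕ) : ℝ)) ^ d :=
        mul_le_mul_of_nonneg_right (le_abs_self K) (by positivity)
    _ ≤ |K| * ((1 + (M : ℝ)) * j) ^ d := by
        apply mul_le_mul_of_nonneg_left _ (abs_nonneg K)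
        apply pow_le_pow_left₀ (by positivity)
        push_cast
        nlinarith
    _ = |K| * (1 + (M : ℝ)) ^ d * (j : ℝ) ^ d := by rw [mul_pow]; ring
    _ < 2 ^ j := hj'

theorem grow {G : Type*} [Group G] {H : Hyp G} {x : G} (A : Ax H x) (L : Subgroup G) (k : ℤ)
    (hk : k ≠ 0) (hx : x ^ k ∈ L) (h : G) (hh : h ∈ L) (hh' : h ∉ Subgroup.zpowers x)
    (K : ℝ) (d : ℕ) :
    ∃ (r : ℕ) (F : Finset G), (∀ g ∈ F, g ∈ L ∧ H.len g ≤ r) ∧ K * (1 + r) ^ d < F.card := by
  classical
  -- a large positive multiple of `k`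
  obtain ⟨N, hN, hNL⟩ : ∃ N : ℤ, 2 * (A.th : ℤ) < N ∧ x ^ N ∈ L := by
    refine ⟨k * (k * (2 * (A.th : ℤ) + 1)), ?_, ?_⟩
    · have h1 : 1 ≤ k * k := by
        have : 0 < k * k := mul_self_pos.mpr hk
        omega
      have hth : (0 : ℤ) ≤ A.th := by positivity
      nlinarith
    · rw [zpow_mul]
      exact L.zpow_mem hx _
  have e1 : (1 : G)⁻¹ * h ∉ Subgroup.zpowers x := by simpa using hh'
  have e2 : h⁻¹ * 1 ∉ Subgroup.zpowers x := by
    intro hc
    rw [mul_one] at hc
    exact hh' (by simpa using (Subgroup.zpowers x).inv_mem hc)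
  have hth : (0 : ℤ) ≤ A.th := by positivity
  set t : G := 1 * x ^ N * 1⁻¹ with ht
  set t' : G := h * x ^ N * h⁻¹ with ht'
  have htL : t ∈ L := by
    rw [ht]
    simpa using hNL
  have htL' : t' ∈ L := by
    rw [ht']
    exact L.mul_mem (L.mul_mem hh hNL) (L.inv_mem hh)
  set M : ℕ := max (H.len t) (H.len t') with hM
  have ind : ∀ j : ℕ, ∃ F : Finset G, F.card = 2 ^ j ∧ ∀ g ∈ F, g ∈ L ∧ H.len g ≤ j * M ∧
      ((A.th : ℤ) < A.s 1 h (g * (t * h)) ∨ (A.th : ℤ) < A.s h 1 (g * (t * h))) := by
    intro j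
    induction j with
    | zero =>
      refine ⟨{1}, by simp, ?_⟩
      intro g hg
      rw [Finset.mem_singleton] at hg
      subst hg
      refine ⟨L.one_mem, by simp [H.len_one], Or.inl ?_⟩
      rw [one_mul, ht, move, A.s_self]
      omega
    | succ j ih =>
      obtain ⟨F, hF, hFg⟩ := ih
      refine ⟨F.image (fun g => t * g) ∪ F.image (fun g => t' * g), ?_, ?_⟩
      · rw [Finset.card_union_of_disjoint, Finset.card_image_of_injective _ (mul_right_injective t),
          Finset.card_image_of_injective _ (mul_right_injective t'), hF, pow_succ]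
        · ring
        · rw [Finset.disjoint_left]
          intro a ha ha'
          obtain ⟨g, hg, rfl⟩ := Finset.mem_image.mp ha
          obtain ⟨g', hg', hgg⟩ := Finset.mem_image.mp ha'
          have h1 : (A.th : ℤ) < A.s 1 h (t * (g * (t * h))) :=
            ping A e1 hN (hFg g hg).2.2
          have h2 : (A.th : ℤ) < A.s h 1 (t' * (g' * (t * h))) :=
            ping A e2 hN (hFg g' hg').2.2.symm
          have h3 : t' * (g' * (t * h)) = t * (g * (t * h)) := by
            have : t' * g' = t * g := hgg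
            rw [← mul_assoc, this, mul_assoc]
          rw [h3] at h2
          exact pong A e1 h1 h2
      · intro a ha
        rcases Finset.mem_union.mp ha with ha | ha
        · obtain ⟨g, hg, rfl⟩ := Finset.mem_image.mp ha
          obtain ⟨g1, g2, g3⟩ := hFg g hg
          refine ⟨L.mul_mem htL g1, ?_, Or.inl ?_⟩
          · have := H.len_mul t g
            have hm : H.len t ≤ M := le_max_left _ _
            have : (j + 1) * M = j * M + M := by ring
            show H.len (t * g) ≤ (j + 1) * M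
            omega
          · show (A.th : ℤ) < A.s 1 h (t * g * (t * h))
            rw [mul_assoc t g]
            exact ping A e1 hN g3
        · obtain ⟨g, hg, rfl⟩ := Finset.mem_image.mp ha
          obtain ⟨g1, g2, g3⟩ := hFg g hg
          refine ⟨L.mul_mem htL' g1, ?_, Or.inr ?_⟩
          · have := H.len_mul t' g
            have hm : H.len t' ≤ M := le_max_right _ _
            have : (j + 1) * M = j * M + M := by ring
            show H.len (t' * g) ≤ (j + 1) * M
            omega
          · show (A.th : ℤ) < A.s h 1 (t' * g * (t * h))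
            rw [mul_assoc t' g]
            exact ping A e2 hN g3.symm
  obtain ⟨j, hj⟩ := exp_beats K d M
  obtain ⟨F, hF, hFg⟩ := ind j
  refine ⟨j * M, F, fun g hg => ⟨(hFg g hg).1, (hFg g hg).2.1⟩, ?_⟩
  rw [hF]
  push_cast
  push_cast at hj
  exact hj

end Pool.Agent.TH699
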