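import Pool.Agent.TH699.TW12.Alg

/-!
Job 1416 (TW12, project MP_817449_lc of helper716): rational points on the cubic surfaces from the
norm theorem.
-/

set_option autoImplicit false

namespace Pool.Agent.TH699.J1416

open Pool.Agent.TH716.TW Pool.Agent.TH699.TW12 NumberField Module IsDedekindDomain Polynomial
open scoped nonZeroDivisors

/-- the third point -/
lemma third {K : Type} [Field K] [NumberField K] {Δ : ℚ} (hΔ : Δ < 0) {r : K}
    (hr : r ^ 2 = (Δ : K)) {S μ : ℚ} (p0 p1 p2 q0 q1 q2 : ℚ)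
    (hq : nm q0 q1 q2 = 0 → q0 = 0 ∧ q1 = 0 ∧ q2 = 0)
    (h : ((p0 : K) + q0 * r) ^ 3 - ((p0 : K) + q0 * r) ^ 2 * ((p1 : K) + q1 * r) +
      5 * ((p0 : K) + q0 * r) ^ 2 * ((p2 : K) + q2 * r) -
      2 * ((p0 : K) + q0 * r) * ((p1 : K) + q1 * r) ^ 2 -
      ((p0 : K) + q0 * r) * ((p1 : K) + q1 * r) * ((p2 : K) + q2 * r) +
      6 * ((p0 : K) + q0 * r) * ((p2 : K) + q2 * r) ^ 2 + ((p1 : K) + q1 * r) ^ 3 -
      ((p1 : K) + q1 * r) ^ 2 * ((p2 : K) + q2 * r) -
      2 * ((p1 : K) + q1 * r) * ((p2 : K) + q2 * r) ^ 2 + ((p2 : K) + q2 * r) ^ 3 -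
      (μ : K) * (3 * ((p0 : K) + q0 * r) - ((p1 : K) + q1 * r) + 5 * ((p2 : K) + q2 * r)) +
      (S : K) = 0) :
    ∃ a b c : ℚ, nm a b c - μ * tr a b c + S = 0 := by
  set G : ℚ → ℚ := fun X => nm (p0 + X * q0) (p1 + X * q1) (p2 + X * q2) -
    μ * tr (p0 + X * q0) (p1 + X * q1) (p2 + X * q2) + S with hGdef
  set g3 : ℚ := nm q0 q1 q2 with hg3
  set g0 : ℚ := G 0 with hg0
  set g2 : ℚ := (G 1 + G (-1)) / 2 - g0 with hg2
  set g1 : ℚ := (G 1 - G (-1)) / 2 - g3 with hg1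
  have hG : ∀ X : ℚ, G X = g3 * X ^ 3 + g2 * X ^ 2 + g1 * X + g0 := by
    intro X
    rw [hg2, hg1, hg0, hg3]
    simp only [hGdef, nm, tr]
    ring
  have hK : ((g2 * Δ + g0 : ℚ) : K) + ((g3 * Δ + g1 : ℚ) : K) * r = 0 := by
    have e : (g3 : K) * r ^ 3 + g2 * r ^ 2 + g1 * r + g0 = 0 := by
      rw [hg2, hg1, hg0, hg3]
      simp only [hGdef, nm, tr]
      push_cast
      linear_combination h
    push_cast
    rw [← hr]
    linear_combination e
  obtain ⟨e1, e2⟩ := uniq hΔ hr hK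
  by_cases hz : g3 = 0
  · obtain ⟨h0, h1, h2⟩ := hq hz
    have hg20 : g2 = 0 := by
      rw [hg2, hg0]
      simp only [hGdef, h0, h1, h2]
      ring
    rw [hg20] at e1
    have e3 : G 0 = 0 := by linarith
    exact ⟨p0 + 0 * q0, p1 + 0 * q1, p2 + 0 * q2, e3⟩
  · have hX : g3 * (-g2 / g3) = -g2 := by field_simp
    have e3 : G (-g2 / g3) = 0 := by
      rw [hG]
      linear_combination ((-g2 / g3) ^ 2 - Δ) * hX + (-g2 / g3) * e2 + e1
    exact ⟨_, _, _, e3⟩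

theorem result (h : S_HNT) (ha : S_aut) : S_surf := by
  intro S μ hμ hneg hodd hyp
  set Δ : ℚ := S ^ 2 - 4 * μ ^ 3 with hΔdef
  have hΔ : Δ < 0 := by linarith
  obtain ⟨K, _, _, r, hr, hrep⟩ := exists_K Δ hΔ
  obtain ⟨M, _, _, _, t, ht, h3, hrepM, hindM⟩ := exists_M K (no_root hΔ hr hrep)
  have htint : IsIntegral ℤ t := by
    refine ⟨X ^ 3 + X ^ 2 - 2 * X - 1, by monicity!, ?_⟩
    simp only [eval₂_sub, eval₂_add, eval₂_pow, eval₂_X, eval₂_mul, eval₂_one, eval₂_ofNat]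
    exact ht
  let θ : 𝓞 M := ⟨t, htint⟩
  have hsit : Sit K M θ := by
    refine ⟨finrank_two hΔ hr hrep, h3, no_real hΔ hr, ramified hΔ hr hodd, ?_⟩
    apply RingOfIntegers.ext
    show algebraMap (𝓞 M) M (θ ^ 3 + θ ^ 2 - 2 * θ - 1) = algebraMap (𝓞 M) M 0
    rw [map_sub, map_sub, map_add, map_pow, map_pow, map_mul, map_ofNat, map_one, map_zero]
    exact ht
  have hΔK : ((Δ : ℚ) : K) = (S : K) ^ 2 - 4 * (μ : K) ^ 3 := by
    rw [hΔdef]
    push_cast
    ring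
  have hμK : (μ : K) ≠ 0 := by exact_mod_cast hμ
  set m : K := (-(S : K) + r) / 2 with hm
  set m' : K := (-(S : K) - r) / 2 with hm'
  have hadd : m + m' = -(S : K) := by
    rw [hm, hm']
    ring
  have hmul : m * m' = (μ : K) ^ 3 := by
    rw [hm, hm']
    linear_combination (-1 / 4 : K) * hr - (1 / 4 : K) * hΔK
  have hm0 : m ≠ 0 := by
    intro h0
    rw [h0, zero_mul] at hmul
    exact pow_ne_zero 3 hμK hmul.symm
  have hm0' : m' ≠ 0 := by
    intro h0
    rw [h0, mul_zero] at hmul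
    exact pow_ne_zero 3 hμK hmul.symm
  obtain ⟨x, hx⟩ := h K M θ hsit m hm0 (fun v hv => div3 v hμ hm0 hm0' hadd hmul hyp hv)
  obtain ⟨τ, σ, hστ, hA, hτ3, hnorm⟩ := ha K M θ hsit
  -- the action of `τ` on `t`
  have hτt : τ t = t ^ 2 - 2 := by
    have e := hστ θ
    have hA' : σ θ = θ ^ 2 - 2 := hA
    rw [hA'] at e
    have e2 : ((θ ^ 2 - 2 : 𝓞 M) : M) = t ^ 2 - 2 := by
      show algebraMap (𝓞 M) M (θ ^ 2 - 2) = t ^ 2 - 2
      rw [map_sub, map_pow, map_ofNat]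
      rfl
    rw [e2] at e
    exact e.symm
  have hτt2 : τ (t ^ 2) = -t ^ 2 - t + 3 := by
    rw [map_pow, hτt]
    linear_combination (t - 1) * ht
  have hττt : τ (τ t) = -t ^ 2 - t + 1 := by
    rw [hτt, map_sub, hτt2, map_ofNat]
    ring
  have hττt2 : τ (τ (t ^ 2)) = t + 2 := by
    rw [map_pow, map_pow, hττt]
    linear_combination (t + 1) * ht
  -- general elements
  have hgen : ∀ a0 a1 a2 : K,
      (algebraMap K M a0 + algebraMap K M a1 * t + algebraMap K M a2 * t ^ 2) *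
      τ (algebraMap K M a0 + algebraMap K M a1 * t + algebraMap K M a2 * t ^ 2) *
      τ (τ (algebraMap K M a0 + algebraMap K M a1 * t + algebraMap K M a2 * t ^ 2)) =
      algebraMap K M (a0 ^ 3 - a0 ^ 2 * a1 + 5 * a0 ^ 2 * a2 - 2 * a0 * a1 ^ 2 - a0 * a1 * a2 +
        6 * a0 * a2 ^ 2 + a1 ^ 3 - a1 ^ 2 * a2 - 2 * a1 * a2 ^ 2 + a2 ^ 3) := by
    intro a0 a1 a2
    have e1 : τ (algebraMap K M a0 + algebraMap K M a1 * t + algebraMap K M a2 * t ^ 2) =
        algebraMap K M a0 + algebraMap K M a1 * (t ^ 2 - 2) +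
          algebraMap K M a2 * (-t ^ 2 - t + 3) := by
      rw [map_add, map_add, map_mul, map_mul, AlgEquiv.commutes, AlgEquiv.commutes,
        AlgEquiv.commutes, hτt, hτt2]
    have e2 : τ (τ (algebraMap K M a0 + algebraMap K M a1 * t + algebraMap K M a2 * t ^ 2)) =
        algebraMap K M a0 + algebraMap K M a1 * (-t ^ 2 - t + 1) +
          algebraMap K M a2 * (t + 2) := by
      simp only [map_add, map_mul, AlgEquiv.commutes]
      rw [hττt, hττt2]
    rw [e2, e1, norm_form ht]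
    simp only [map_sub, map_add, map_mul, map_pow, map_ofNat]
  have htrace : ∀ a0 a1 a2 : K,
      (algebraMap K M a0 + algebraMap K M a1 * t + algebraMap K M a2 * t ^ 2) +
      τ (algebraMap K M a0 + algebraMap K M a1 * t + algebraMap K M a2 * t ^ 2) +
      τ (τ (algebraMap K M a0 + algebraMap K M a1 * t + algebraMap K M a2 * t ^ 2)) =
      algebraMap K M (3 * a0 - a1 + 5 * a2) := by
    intro a0 a1 a2
    simp only [map_add, map_mul, AlgEquiv.commutes]
    rw [hττt, hττt2, hτt, hτt2]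
    simp only [map_sub, map_add, map_mul, map_ofNat]
    ring
  -- the element `a`
  have hmM : algebraMap K M m ≠ 0 := by
    rwa [Ne, map_eq_zero]
  have hN : x * τ x * τ (τ x) = algebraMap K M m := by
    rw [← hnorm, hx]
  have hx0 : x ≠ 0 := by
    rintro h0
    rw [h0, zero_mul, zero_mul] at hN
    exact hmM hN.symm
  have hx1 : τ x ≠ 0 := by
    rintro h0
    rw [h0, mul_zero, zero_mul] at hN
    exact hmM hN.symm
  have hx2 : τ (τ x) ≠ 0 := by
    rintro h0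
    rw [h0, mul_zero] at hN
    exact hmM hN.symm
  set c : M := algebraMap K M (μ : K) with hc
  have hc3 : c ^ 3 = algebraMap K M m * algebraMap K M m' := by
    rw [hc, ← map_pow, ← map_mul, hmul]
  have hτc : τ c = c := by
    rw [hc, AlgEquiv.commutes]
  set a : M := x + c / τ (τ x) with hadef
  have ha1 : τ a = τ x + c / x := by
    rw [hadef, map_add, map_div₀, hτc, hτ3]
  have ha2 : τ (τ a) = τ (τ x) + c / τ x := by
    rw [ha1, map_add, map_div₀, hτc]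
  have hsum : algebraMap K M m + algebraMap K M m' = - algebraMap K M (S : K) := by
    rw [← map_add, hadd, map_neg]
  have hprod : a * τ a * τ (τ a) = c * (a + τ a + τ (τ a)) - algebraMap K M (S : K) := by
    rw [ha2, ha1, hadef]
    have e1 : (x + c / τ (τ x)) * (τ x + c / x) * (τ (τ x) + c / τ x) =
        x * τ x * τ (τ x) + c ^ 3 / (x * τ x * τ (τ x)) +
        c * ((x + c / τ (τ x)) + (τ x + c / x) + (τ (τ x) + c / τ x)) := by
      field_simp
      ring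
    rw [e1, hN, hc3, mul_div_cancel_left₀ _ hmM]
    linear_combination hsum
  obtain ⟨a0, a1, a2, harep⟩ := hrepM a
  rw [harep, hgen, htrace] at hprod
  have hKeq : a0 ^ 3 - a0 ^ 2 * a1 + 5 * a0 ^ 2 * a2 - 2 * a0 * a1 ^ 2 - a0 * a1 * a2 +
        6 * a0 * a2 ^ 2 + a1 ^ 3 - a1 ^ 2 * a2 - 2 * a1 * a2 ^ 2 + a2 ^ 3 -
        (μ : K) * (3 * a0 - a1 + 5 * a2) + (S : K) = 0 := by
    apply (algebraMap K M).injective
    rw [map_zero, map_add, map_sub, map_mul (algebraMap K M) (μ : K), hprod]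
    ring
  obtain ⟨p0, q0, rfl⟩ := hrep a0
  obtain ⟨p1, q1, rfl⟩ := hrep a1
  obtain ⟨p2, q2, rfl⟩ := hrep a2
  apply third hΔ hr p0 p1 p2 q0 q1 q2 _ hKeq
  intro hnm
  have hb := hgen (q0 : K) (q1 : K) (q2 : K)
  have hnmK : ((q0 : K) ^ 3 - (q0 : K) ^ 2 * (q1 : K) + 5 * (q0 : K) ^ 2 * (q2 : K) -
      2 * (q0 : K) * (q1 : K) ^ 2 - (q0 : K) * (q1 : K) * (q2 : K) +
      6 * (q0 : K) * (q2 : K) ^ 2 + (q1 : K) ^ 3 - (q1 : K) ^ 2 * (q2 : K) -
      2 * (q1 : K) * (q2 : K) ^ 2 + (q2 : K) ^ 3) = 0 := by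
    have := congrArg (fun z : ℚ => (z : K)) hnm
    simp only [nm] at this
    push_cast at this
    exact this
  rw [hnmK, map_zero] at hb
  have hb0 : algebraMap K M (q0 : K) + algebraMap K M (q1 : K) * t +
      algebraMap K M (q2 : K) * t ^ 2 = 0 := by
    rcases mul_eq_zero.mp hb with hb | hb
    · rcases mul_eq_zero.mp hb with hb | hb
      · exact hb
      · rwa [map_eq_zero] at hb
    · rwa [map_eq_zero, map_eq_zero] at hb
  obtain ⟨k0, k1, k2⟩ := hindM _ _ _ hb0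
  exact ⟨by exact_mod_cast k0, by exact_mod_cast k1, by exact_mod_cast k2⟩

end Pool.Agent.TH699.J1416
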