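import Pool.Agent.TH28.FL.DatR

/-!
Job 1924 (FL4-RKG): the index of a reductive Lie algebra is at least its rank
-/

set_option autoImplicit false

universe u v

namespace Pool.Agent.TH699.J1924

open Module TensorProduct
open Pool.Agent.TH28.FL

theorem rkg (hS : Pool.Agent.TH28.FL.S_RKS.{u,v}) : Pool.Agent.TH28.FL.S_RKG.{u,v} := by
  intro k _ _ _ g s _ _ _ _ _ _ _ ι π hι hz t ht
  -- the bracket
  have hbr : ∀ u w : g, ⁅u, w⁆ = ι ⁅π u, π w⁆ := by
    intro u w
    have h1 : ⁅u, w⁆ = ⁅ι (π u), w⁆ := by
      have := hz u w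
      rwa [sub_lie, sub_eq_zero] at this
    have h2 : ⁅w, ι (π u)⁆ = ⁅ι (π w), ι (π u)⁆ := by
      have := hz w (ι (π u))
      rwa [sub_lie, sub_eq_zero] at this
    rw [h1, ← lie_skew, h2, lie_skew, LieHom.map_lie]
  -- the form attaining the index
  have hne : (Set.range fun ξ : Dual k g =>
      finrank k (LinearMap.ker ((lieB k g).compr₂ ξ))).Nonempty := Set.range_nonempty _
  obtain ⟨ξ, hξ⟩ := Nat.sInf_mem hne
  change finrank k (LinearMap.ker ((lieB k g).compr₂ ξ)) = ind (lieB k g) at hξ
  have hnd := LieAlgebra.IsKilling.killingForm_nondegenerate k s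
  set e := LinearMap.BilinForm.toDual (killingForm k s) hnd with he
  set x : s := e.symm (ξ ∘ₗ (ι : s →ₗ[k] g)) with hx
  have hκ : ∀ y : s, killingForm k s x y = ξ (ι y) := by
    intro y
    rw [← LinearMap.BilinForm.toDual_def hnd, hx]
    change e (e.symm _) y = _
    rw [LinearEquiv.apply_symm_apply]
    rfl
  -- the Cartan subalgebra of `s`
  have hker : ∀ z : g, π z = 0 → z ∈ t := by
    intro z hz0
    have h1 : z ∈ t.normalizer := by
      rw [LieSubalgebra.mem_normalizer_iff]
      intro a _
      have := hz z a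
      rw [hz0, map_zero, sub_zero] at this
      rw [this]
      exact t.zero_mem
    rwa [ht.self_normalizing] at h1
  set H : LieSubalgebra k s := (π.comp t.incl).range with hH
  have hmem : ∀ a ∈ t, π a ∈ H := fun a ha => ⟨⟨a, ha⟩, rfl⟩
  have : H.IsCartanSubalgebra := by
    refine ⟨?_, ?_⟩
    · have := ht.nilpotent
      exact Function.Surjective.lieAlgebra_isNilpotent
        (LieHom.surjective_rangeRestrict (π.comp t.incl))
    · refine le_antisymm ?_ (LieSubalgebra.le_normalizer H)
      intro y hy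
      rw [LieSubalgebra.mem_normalizer_iff] at hy
      have h1 : ι y ∈ t.normalizer := by
        rw [LieSubalgebra.mem_normalizer_iff]
        intro a ha
        obtain ⟨⟨c, hc⟩, hc'⟩ := hy (π a) (hmem a ha)
        change π c = ⁅y, π a⁆ at hc'
        rw [hbr, hι, ← hc']
        have h2 : c - ι (π c) ∈ t := hker _ (by rw [map_sub, hι, sub_self])
        have h3 := t.sub_mem hc h2
        rwa [sub_sub_cancel] at h3
      rw [ht.self_normalizing] at h1
      have := hmem _ h1
      rwa [hι] at this
  have hS' := hS k s H x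
  -- dimension counts
  have hπK : ∀ z : LinearMap.ker (π : g →ₗ[k] s), π (z : g) = 0 := fun z => z.2
  have d1 : finrank k t ≤ finrank k (LinearMap.ker (π : g →ₗ[k] s)) + finrank k H := by
    rw [← Module.finrank_prod]
    refine LinearMap.finrank_le_finrank_of_injective (f := LinearMap.prod
      (LinearMap.codRestrict (LinearMap.ker (π : g →ₗ[k] s))
        (t.toSubmodule.subtype - (ι : s →ₗ[k] g) ∘ₗ (π : g →ₗ[k] s) ∘ₗ t.toSubmodule.subtype)
        (fun a => ?_))
      (LinearMap.codRestrict H.toSubmodule ((π : g →ₗ[k] s) ∘ₗ t.toSubmodule.subtype)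
        (fun a => hmem _ a.2))) ?_
    · change π ((a : g) - ι (π (a : g))) = 0
      rw [map_sub, hι, sub_self]
    · rw [← LinearMap.ker_eq_bot, LinearMap.ker_eq_bot']
      intro a ha
      have h1 : (a : g) - ι (π (a : g)) = 0 := congrArg (fun q => (q.1 : g)) ha
      have h2 : π (a : g) = 0 := congrArg (fun q => (q.2 : s)) ha
      rw [h2, map_zero, sub_zero] at h1
      exact Subtype.ext h1
  have d2 : finrank k (LinearMap.ker (π : g →ₗ[k] s)) +
      finrank k (LinearMap.ker (LieAlgebra.ad k s x)) ≤
      finrank k (LinearMap.ker ((lieB k g).compr₂ ξ)) := by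
    rw [← Module.finrank_prod]
    refine LinearMap.finrank_le_finrank_of_injective (f :=
      (LinearMap.codRestrict (LinearMap.ker ((lieB k g).compr₂ ξ))
        (LinearMap.coprod (LinearMap.ker (π : g →ₗ[k] s)).subtype
          ((ι : s →ₗ[k] g) ∘ₗ (LinearMap.ker (LieAlgebra.ad k s x)).subtype))
        (fun a => ?_))) ?_
    · rw [LinearMap.mem_ker]
      refine LinearMap.ext fun w => ?_
      change ξ ⁅((a.1 : g) + ι (a.2 : s)), w⁆ = 0
      rw [hbr, map_add, hπK, hι, zero_add, ← hκ]
      have h1 : ⁅x, (a.2 : s)⁆ = 0 := a.2.2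
      rw [← LieModule.traceForm_apply_lie_apply, h1]
      simp
    · rw [← LinearMap.ker_eq_bot, LinearMap.ker_eq_bot']
      intro a ha
      have h1 : (a.1 : g) + ι (a.2 : s) = 0 := congrArg Subtype.val ha
      have h2 : (a.2 : s) = 0 := by
        have := congrArg π h1
        rwa [map_add, hπK, hι, zero_add, map_zero] at this
      rw [h2, map_zero, add_zero] at h1
      exact Prod.ext (Subtype.ext h1) (Subtype.ext h2)
  rw [← hξ]
  omega

end Pool.Agent.TH699.J1924
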